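import Pool.Agent.W658.KT.Stm

/-!
# Upper bound for `2 k + 1` arms in annuli: counting, union bound and assembly (helper214)
-/

set_option autoImplicit false

namespace Pool.Agent.W658.KT
open H974 H906.Cyl
open Pool.Agent.H160R2.ML (nm)
open Pool.Agent.W801.OU (bxz)
open Pool.Agent.W658.KG (tv TK)

namespace TANN

theorem bxz_iff {R : ℕ} {e : Edg} : e ∈ bxz R ↔ e ∈ boxE R := by
  constructor
  · rintro ⟨h1, h2⟩
    obtain ⟨x, y, _ | _⟩ := e
    · simp only [nm, src_mk, tgt_false, max_le_iff, abs_le] at h1 h2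
      rw [boxE, mem_RE_false]
      omega
    · simp only [nm, src_mk, tgt_true, max_le_iff, abs_le] at h1 h2
      rw [boxE, mem_RE_true]
      omega
  · intro h
    obtain ⟨x, y, _ | _⟩ := e
    · rw [boxE, mem_RE_false] at h
      refine ⟨?_, ?_⟩ <;> simp only [nm, src_mk, tgt_false, max_le_iff, abs_le] <;> omega
    · rw [boxE, mem_RE_true] at h
      refine ⟨?_, ?_⟩ <;> simp only [nm, src_mk, tgt_true, max_le_iff, abs_le] <;> omega

theorem pr_half (S : Finset Edg) (A : Finset Edg → Prop) [DecidablePred A] :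
    Pr (fun _ => (1 / 2 : ℝ)) S A = (1 / 2 : ℝ) ^ S.card * ((S.powerset.filter A).card : ℝ) := by
  classical
  unfold Pr Ex
  rw [Finset.card_filter, Nat.cast_sum, Finset.mul_sum]
  refine Finset.sum_congr rfl fun F hF => ?_
  have hF' := Finset.mem_powerset.1 hF
  rw [Finset.prod_const, Finset.prod_const, show (1 - 1 / 2 : ℝ) = 1 / 2 by norm_num, ← pow_add,
    Finset.card_sdiff_of_subset hF', Nat.add_sub_cancel' (Finset.card_le_card hF')]
  congr 1
  show ind (A F) = _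
  by_cases h : A F
  · rw [ind_of h, if_pos h]
    norm_num
  · rw [ind_not_of h, if_neg h]
    norm_num

theorem nm_le_nd (v : Vtx) : nm v ≤ nd v := by
  unfold nm nd
  have h1 := abs_nonneg v.1
  have h2 := abs_nonneg v.2
  omega

/-- comparison up to the number of configurations of a small box -/
theorem count_le (E E' : Finset Edg) (A B : Finset Edg → Prop)
    (f : Finset Edg → Finset Edg × Finset Edg)
    (h1 : ∀ F, F ⊆ E → A F → (f F).1 ⊆ E ∧ B (f F).1 ∧ (f F).2 ⊆ E')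
    (h2 : ∀ F F', F ⊆ E → F' ⊆ E → A F → A F' → f F = f F' → F = F') :
    Pr (fun _ => (1 / 2 : ℝ)) E A ≤ 2 ^ E'.card * Pr (fun _ => (1 / 2 : ℝ)) E B := by
  classical
  rw [pr_half, pr_half]
  have hc : (E.powerset.filter A).card ≤ (E.powerset.filter B).card * E'.powerset.card := by
    rw [← Finset.card_product]
    refine Finset.card_le_card_of_injOn f ?_ ?_
    · intro F hF
      simp only [Finset.coe_filter, Finset.mem_powerset, Set.mem_ofPred_eq] at hF
      obtain ⟨h3, h4, h5⟩ := h1 F hF.1 hF.2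
      simp only [Finset.coe_product, Set.mem_prod, Finset.mem_coe, Finset.mem_filter,
        Finset.mem_powerset]
      exact ⟨⟨h3, h4⟩, h5⟩
    · intro F hF F' hF' he
      simp only [Finset.coe_filter, Finset.mem_powerset, Set.mem_ofPred_eq] at hF hF'
      exact h2 F F' hF.1 hF'.1 hF.2 hF'.2 he
  rw [Finset.card_powerset] at hc
  have hc' : ((E.powerset.filter A).card : ℝ) ≤
      ((E.powerset.filter B).card : ℝ) * 2 ^ E'.card := by exact_mod_cast hc
  calc (1 / 2 : ℝ) ^ E.card * ((E.powerset.filter A).card : ℝ)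
      ≤ (1 / 2 : ℝ) ^ E.card * (((E.powerset.filter B).card : ℝ) * 2 ^ E'.card) :=
        mul_le_mul_of_nonneg_left hc' (by positivity)
    _ = _ := by ring

end TANN

open TANN

/-- one family of tokens -/
theorem t_MOD : S_PTH → S_FIN → S_MOD := by
  classical
  intro hP hF k n hk
  refine ⟨2 ^ (boxE n).card, by positivity, ?_⟩
  intro R X a hnR hN
  obtain ⟨P, hPP⟩ := hP k n X a hk hN
  obtain ⟨Q, hQ⟩ : ∃ Q : Set Edg, Q = {e | ∃ i < k, src e ∈ P i ∧ tgt e ∈ P i} := ⟨_, rfl⟩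
  have hnR' : (n : ℤ) < R := by exact_mod_cast hnR
  have hQD : Q ⊆ Dd n := by
    intro e he
    rw [hQ] at he
    obtain ⟨i, hi, h1, h2⟩ := he
    exact ⟨(hPP.bd i hi.le _ h1).1, (hPP.bd i hi.le _ h2).1⟩
  have hDb : ∀ e ∈ Dd (n : ℤ), e ∈ boxE n := by
    intro e he
    rw [← bxz_iff]
    exact ⟨(nm_le_nd _).trans he.1, (nm_le_nd _).trans he.2⟩
  have hDR : ∀ e ∈ Dd (n : ℤ), e ∈ boxE R := fun e he => boxE_mono hnR.le (hDb e he)
  obtain ⟨g, hg⟩ : ∃ g : Finset Edg → Finset Edg, ∀ F e, e ∈ g F ↔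
      e ∈ boxE R ∧ e ∈ Q ∪ ((↑F : Set Edg) \ Dd n) :=
    ⟨fun F => (boxE R).filter (fun e => e ∈ Q ∪ ((↑F : Set Edg) \ Dd n)), fun F e => by
      rw [Finset.mem_filter]⟩
  obtain ⟨g', hg'⟩ : ∃ g' : Finset Edg → Finset Edg, ∀ F e, e ∈ g' F ↔ e ∈ F ∧ e ∈ Dd (n : ℤ) :=
    ⟨fun F => F.filter (fun e => e ∈ Dd (n : ℤ)), fun F e => by rw [Finset.mem_filter]⟩
  have hco : ∀ F, F ⊆ boxE R → (↑(g F) : Set Edg) = Q ∪ ((↑F : Set Edg) \ Dd n) := by
    intro F hFR
    ext e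
    rw [Finset.mem_coe, hg]
    refine ⟨fun h => h.2, fun h => ⟨?_, h⟩⟩
    rcases h with h | h
    · exact hDR e (hQD h)
    · exact hFR (Finset.mem_coe.1 h.1)
  refine count_le (boxE R) (boxE n) _ _ (fun F => (g F, g' F)) ?_ ?_
  · intro F hFR hT
    refine ⟨fun e he => ((hg F e).1 he).1, ?_, fun e he => hDb e ((hg' F e).1 he).2⟩
    show TK k R (↑(g F) : Set Edg)
    rw [hco F hFR, hQ]
    exact hF k n R a P (↑F : Set Edg) hk hnR hPP hT
  · intro F F' hFR hFR' _ _ he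
    have e1 : g F = g F' := congrArg Prod.fst he
    have e2 : g' F = g' F' := congrArg Prod.snd he
    have key : ∀ F₁ F₂ : Finset Edg, F₁ ⊆ boxE R → g F₁ = g F₂ → g' F₁ = g' F₂ → F₁ ⊆ F₂ := by
      intro F₁ F₂ hF₁ e1 e2 e he
      by_cases hD : e ∈ Dd (n : ℤ)
      · have : e ∈ g' F₁ := (hg' F₁ e).2 ⟨he, hD⟩
        rw [e2] at this
        exact ((hg' F₂ e).1 this).1
      · have : e ∈ g F₁ := (hg F₁ e).2 ⟨hF₁ he, Or.inr ⟨Finset.mem_coe.2 he, hD⟩⟩
        rw [e1] at this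
        rcases ((hg F₂ e).1 this).2 with h | h
        · exact absurd (hQD h) hD
        · exact Finset.mem_coe.1 h.1
    exact Finset.Subset.antisymm (key F F' hFR e1 e2) (key F' F hFR' e1.symm e2.symm)

namespace TANN

/-- permutation of the clusters -/
theorem tok_perm {k n R : ℕ} {a : ℕ → Vtx} {F : Set Edg} {b : ℕ → ℕ} (hbk : b k = k)
    (hb : ∀ i < k, b i < k) (hbi : ∀ i j, i < k → j < k → b i = b j → i = j)
    (h : Tok k n R a F) : Tok k n R (fun i => a (b i)) F := by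
  obtain ⟨h1, h2, h3, q, hq, h4⟩ := h
  have hle : ∀ i ≤ k, b i ≤ k := by
    intro i hi
    rcases hi.lt_or_eq with h | h
    · exact (hb i h).le
    · rw [h, hbk]
  refine ⟨fun i hi => h1 _ (hle i hi), fun i hi => h2 _ (hb i hi), ?_, q, hq, ?_⟩
  · intro i j hi hj hij
    refine h3 _ _ (hb i hi) (hle j hj) ?_
    intro hbb
    rcases hj.lt_or_eq with h | h
    · exact hij (hbi i j hi h hbb)
    · rw [h, hbk] at hbb
      exact (hb i hi).ne hbb
  · show Reach _ (a (b k)) q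
    rw [hbk]
    refine h4.mono ?_
    intro e he
    exact ⟨he.1, fun i hi => he.2 _ (hb i hi)⟩

theorem tok_inj {k n R : ℕ} {a : ℕ → Vtx} {F : Set Edg} (h : Tok k n R a F) :
    ∀ i j, i ≤ k → j ≤ k → a i = a j → i = j := by
  obtain ⟨-, -, h3, -⟩ := h
  have key : ∀ i j, i < k → j ≤ k → a i = a j → i = j := by
    intro i j hi hj hij
    by_contra hne
    refine h3 i j hi hj hne ?_
    rw [hij]
    exact Reach.refl _ _
  intro i j hi hj hij
  rcases hi.lt_or_eq with h | h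
  · exact key i j h hj hij
  · rcases hj.lt_or_eq with h' | h'
    · exact (key j i h' hi hij.symm).symm
    · rw [h, h']

/-- only the first tokens matter -/
theorem tok_congr {k n R : ℕ} {a a' : ℕ → Vtx} {F : Set Edg} (haa : ∀ i ≤ k, a i = a' i)
    (h : Tok k n R a F) : Tok k n R a' F := by
  obtain ⟨h1, h2, h3, q, hq, h4⟩ := h
  refine ⟨fun i hi => by rw [← haa i hi]; exact h1 i hi,
    fun i hi => by rw [← haa i hi.le]; exact h2 i hi,
    fun i j hi hj hij => by rw [← haa i hi.le, ← haa j hj]; exact h3 i j hi hj hij, q, hq, ?_⟩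
  rw [← haa k le_rfl]
  refine h4.mono ?_
  intro e he
  refine ⟨he.1, fun i hi => ?_⟩
  rw [← haa i hi.le]
  exact he.2 i hi

theorem tok_rot (hR : S_ROT) (k n R : ℕ) (q : ℕ) : ∀ a : ℕ → Vtx,
    Pr (fun _ => (1 / 2 : ℝ)) (boxE R) (fun F => Tok k n R a (↑F : Set Edg)) ≤
      Pr (fun _ => (1 / 2 : ℝ)) (boxE R)
        (fun F => Tok k n R (fun i => rotV^[q] (a i)) (↑F : Set Edg)) := by
  induction q with
  | zero => exact fun a => le_rfl
  | succ q ih =>
    intro a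
    refine (hR k n R a).trans ?_
    have h := ih (fun i => rotV (a i))
    simpa only [Function.iterate_succ, Function.comp] using h

theorem okh : Ok (fun _ : Edg => (1 / 2 : ℝ)) := fun _ => ⟨by norm_num, by norm_num⟩

end TANN

open TANN

/-- all the tokens -/
theorem t_ALL : S_MOD → S_ORD → S_ROT → S_TOK → S_ALL := by
  classical
  intro hM hO hR hT k d hk hd
  obtain ⟨n, hn⟩ : ∃ n : ℕ, n = max (2 * d) (100 * (k + 2) ^ 2) := ⟨_, rfl⟩
  have hn1 : 2 * d ≤ n := hn ▸ le_max_left _ _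
  have hn2 : 100 * (k + 2) ^ 2 ≤ n := hn ▸ le_max_right _ _
  obtain ⟨C, hC, hCC⟩ := hM k n hk
  obtain ⟨N, hN⟩ : ∃ N : Finset Vtx, ∀ v : Vtx, nd v = n → v ∈ N := by
    refine ⟨Finset.Icc (-(n : ℤ)) n ×ˢ Finset.Icc (-(n : ℤ)) n, ?_⟩
    intro v hv
    unfold nd at hv
    have h1 := abs_nonneg v.1
    have h2 := abs_nonneg v.2
    rw [Finset.mem_product, Finset.mem_Icc, Finset.mem_Icc, ← abs_le, ← abs_le]
    omega
  obtain ⟨Θ, hΘ⟩ : ∃ Θ : Finset (Fin (k + 1) → Vtx), Θ = Fintype.piFinset (fun _ => N) := ⟨_, rfl⟩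
  obtain ⟨ext, hext⟩ : ∃ ext : (Fin (k + 1) → Vtx) → ℕ → Vtx,
      ∀ (t : Fin (k + 1) → Vtx) (i : ℕ) (h : i < k + 1), ext t i = t ⟨i, h⟩ :=
    ⟨fun t i => if h : i < k + 1 then t ⟨i, h⟩ else 0, fun t i h => dif_pos h⟩
  refine ⟨(Θ.card : ℝ) * C + 1, by positivity, n + 1, ?_⟩
  intro R hRn
  have hnR : n < R := hRn
  have one : ∀ a : ℕ → Vtx,
      Pr (fun _ => (1 / 2 : ℝ)) (boxE R) (fun F => Tok k n R a (↑F : Set Edg)) ≤
        C * Pr (fun _ => (1 / 2 : ℝ)) (boxE R) (fun F => TK k R (↑F : Set Edg)) := by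
    intro a
    by_cases hex : ∃ F : Set Edg, Tok k n R a F
    · obtain ⟨F0, hF0⟩ := hex
      obtain ⟨b, q, X, hbk, hb, hbi, hNr⟩ := hO k n a (by omega) hn2 hF0.1 (tok_inj hF0)
      refine le_trans ?_ (hCC R X _ hnR hNr)
      refine le_trans ?_ (tok_rot hR k n R q (fun i => a (b i)))
      exact Pr_mono okh (fun F _ h => tok_perm hbk hb hbi h)
    · have h0 : Pr (fun _ => (1 / 2 : ℝ)) (boxE R) (fun F => Tok k n R a (↑F : Set Edg)) ≤
          Pr (fun _ => (1 / 2 : ℝ)) (boxE R) (fun _ => False) :=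
        Pr_mono okh (fun F _ h => hex ⟨_, h⟩)
      have h1 : Pr (fun _ => (1 / 2 : ℝ)) (boxE R) (fun _ => False) = 0 := by
        rw [pr_half]
        simp
      rw [h1] at h0
      exact h0.trans (mul_nonneg hC.le (Pr_nonneg okh _ _))
  have hun : Pr (fun _ => (1 / 2 : ℝ)) (boxE R) (fun F => AK k d R (↑F : Set Edg)) ≤
      Pr (fun _ => (1 / 2 : ℝ)) (boxE R)
        (fun F => ∃ t ∈ Θ, Tok k n R (ext t) (↑F : Set Edg)) := by
    refine Pr_mono okh (fun F _ h => ?_)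
    obtain ⟨a, ha⟩ := hT k d n R (↑F : Set Edg) (by omega) hn1 hnR h
    refine ⟨fun i => a i, ?_, ?_⟩
    · rw [hΘ, Fintype.mem_piFinset]
      exact fun i => hN _ (ha.1 i (by have := i.2; omega))
    · refine tok_congr ?_ ha
      intro i hi
      rw [hext _ i (by omega)]
  refine hun.trans ((Pr_exists_le okh _ Θ _).trans ?_)
  refine (Finset.sum_le_sum (fun t _ => one (ext t))).trans ?_
  rw [Finset.sum_const, nsmul_eq_mul]
  have hp := Pr_nonneg okh (boxE R) (fun F => TK k R (↑F : Set Edg))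
  nlinarith

/-- **upper bound for `2 k + 1` arms in annuli** -/
theorem t_ANN : S_ALL → KG.S_HON → S_ANN := by
  intro hA hH k d hk hd
  obtain ⟨C1, hC1, R0, h1⟩ := hA k d hk hd
  obtain ⟨C2, hC2, h2⟩ := hH k hk
  obtain ⟨s, hs⟩ : ∃ s : ℝ, s = (k : ℝ) * (k + 1) / 3 := ⟨_, rfl⟩
  have hs0 : 0 ≤ s := by rw [hs]; positivity
  refine ⟨C1 * C2 + ((R0 : ℝ) + 1) ^ s, by positivity, ?_⟩
  intro R hR
  have hR1 : (1 : ℝ) ≤ R := by exact_mod_cast hR
  have hR0 : (0 : ℝ) < R := by linarith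
  rw [← hs]
  have hpos : 0 < (R : ℝ) ^ (-s) := Real.rpow_pos_of_pos hR0 _
  by_cases h : R0 ≤ R
  · have h3 := h2 R hR
    rw [← hs] at h3
    calc _ ≤ C1 * Pr (fun _ => (1 / 2 : ℝ)) (boxE R) (fun F => TK k R (↑F : Set Edg)) := h1 R h
      _ ≤ C1 * (C2 * (R : ℝ) ^ (-s)) := mul_le_mul_of_nonneg_left h3 hC1.le
      _ ≤ (C1 * C2 + ((R0 : ℝ) + 1) ^ s) * (R : ℝ) ^ (-s) := by
        have : 0 ≤ ((R0 : ℝ) + 1) ^ s * (R : ℝ) ^ (-s) := by positivity
        linarith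
  · push Not at h
    have h4 : (R : ℝ) ≤ (R0 : ℝ) + 1 := by
      have : (R : ℝ) ≤ R0 := by exact_mod_cast h.le
      linarith
    have h5 : (1 : ℝ) ≤ ((R0 : ℝ) + 1) ^ s * (R : ℝ) ^ (-s) := by
      rw [Real.rpow_neg hR0.le, ← div_eq_mul_inv, le_div_iff₀ (Real.rpow_pos_of_pos hR0 _), one_mul]
      exact Real.rpow_le_rpow hR0.le h4 hs0
    refine (Pr_le_one okh _ _).trans (h5.trans ?_)
    have : 0 ≤ C1 * C2 * (R : ℝ) ^ (-s) := by positivity
    linarith

end Pool.Agent.W658.KT
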