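import Pool.Agent.W658.KT.Stm

set_option autoImplicit false

namespace Pool.Agent.W658.KT.FINh

open H974 H906.Cyl
open Pool.Agent.H160R2.ML (nm)
open Pool.Agent.W801.OU (bxz)
open Pool.Agent.W658.KG (tv TK)
open Pool.Agent.W658.KT

theorem nd_edge (e : Edg) : nd (tgt e) ≤ nd (src e) + 1 ∧ nd (src e) ≤ nd (tgt e) + 1 := by
  obtain ⟨x, y, b⟩ := e
  cases b
  · rw [src_mk, tgt_false]
    unfold nd
    simp only
    rcases abs_cases y with ⟨h1, h2⟩ | ⟨h1, h2⟩ <;>
    rcases abs_cases (y + 1) with ⟨h3, h4⟩ | ⟨h3, h4⟩ <;>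
    rw [h1, h3] <;> constructor <;> linarith
  · rw [src_mk, tgt_true]
    unfold nd
    simp only
    rcases abs_cases x with ⟨h1, h2⟩ | ⟨h1, h2⟩ <;>
    rcases abs_cases (x + 1) with ⟨h3, h4⟩ | ⟨h3, h4⟩ <;>
    rw [h1, h3] <;> constructor <;> linarith

theorem nm_le_nd (v : Vtx) : nm v ≤ nd v := by
  unfold nm nd
  have h1 := abs_nonneg v.1
  have h2 := abs_nonneg v.2
  apply max_le <;> linarith

/-- an edge outside the rotated box -/
theorem out_edge {n : ℤ} {e : Edg} (he : e ∉ Dd n) :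
    n ≤ nd (src e) ∧ n ≤ nd (tgt e) := by
  have h := nd_edge e
  have h2 : ¬ (nd (src e) ≤ n ∧ nd (tgt e) ≤ n) := he
  constructor
  · by_contra hc
    apply h2
    constructor <;> omega
  · by_contra hc
    apply h2
    constructor <;> omega

theorem rn_ge {n R : ℤ} {F : Set Edg} {u v : Vtx} (hu : n ≤ nd u) (h : Rn n R F u v) :
    n ≤ nd v := by
  unfold Rn Reach at h
  induction h with
  | refl => exact hu
  | tail _ hs _ =>
    obtain ⟨e, he, h1 | h1⟩ := hs
    · rw [← h1.2]
      exact (out_edge he.2.2).2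
    · rw [← h1.1]
      exact (out_edge he.2.2).1

/-- the cluster number `i` -/
def KK (n R : ℕ) (a : ℕ → Vtx) (P : ℕ → Set Vtx) (F : Set Edg) (i : ℕ) : Set Vtx :=
  {v | v ∈ P i ∨ Rn n R F (a i) v}

section
variable {k n R : ℕ} {a : ℕ → Vtx} {P : ℕ → Set Vtx} {F : Set Edg}

theorem p_not_K (hP : Pth k n a P) (hT : Tok k n R a F) {i j : ℕ} (hi : i < k) (hj : j ≤ k)
    (hij : i ≠ j) {v : Vtx} (hv : v ∈ P j) : v ∉ KK n R a P F i := by
  rintro (h | h)
  · exact hP.dj i j hi.le hj hij v h hv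
  · have h1 : (n : ℤ) ≤ nd v := rn_ge (by rw [hT.1 i hi.le]) h
    have h2 := hP.bd j hj v hv
    have h3 : v = a j := h2.2 (le_antisymm h2.1 h1)
    rw [h3] at h
    exact hT.2.2.1 i j hi hj hij h

/-- an end in `P i` of an edge outside of the rotated box is the token -/
theorem tok_of_edge (hP : Pth k n a P) {i : ℕ} (hi : i ≤ k) {e : Edg} (he : e ∉ Dd (n : ℤ)) :
    (src e ∈ P i → src e = a i) ∧ (tgt e ∈ P i → tgt e = a i) := by
  have h := out_edge he
  constructor
  · intro h1
    have h2 := hP.bd i hi _ h1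
    exact h2.2 (le_antisymm h2.1 h.1)
  · intro h1
    have h2 := hP.bd i hi _ h1
    exact h2.2 (le_antisymm h2.1 h.2)

/-- the modified configuration -/
def Fm (k n : ℕ) (P : ℕ → Set Vtx) (F : Set Edg) : Set Edg :=
  {e | ∃ i < k, src e ∈ P i ∧ tgt e ∈ P i} ∪ (F \ Dd n)

theorem K_step (hP : Pth k n a P) (hT : Tok k n R a F) {i : ℕ} (hi : i < k) {u v : Vtx}
    (hu : u ∈ KK n R a P F i) (h : Adj (Fm k n P F ∩ bxz R) u v) : v ∈ KK n R a P F i := by
  obtain ⟨e, ⟨he, heR⟩, huv⟩ := h
  rcases he with ⟨j, hj, h1, h2⟩ | he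
  · -- an edge of a path
    have hvj : u ∈ P j ∧ v ∈ P j := by
      rcases huv with ⟨h3, h4⟩ | ⟨h3, h4⟩
      · rw [← h3, ← h4]
        exact ⟨h1, h2⟩
      · rw [← h3, ← h4]
        exact ⟨h2, h1⟩
    have hij : i = j := by
      by_contra hij
      exact p_not_K hP hT hi hj.le hij hvj.1 hu
    rw [hij]
    exact Or.inl hvj.2
  · -- an edge of the annulus
    have hadj : Adj (F ∩ An n R) u v := ⟨e, ⟨he.1, heR, he.2⟩, huv⟩
    right
    rcases hu with hu | hu
    · have hua : u = a i := by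
        rcases huv with ⟨h3, _⟩ | ⟨_, h3⟩
        · rw [← h3] at hu ⊢
          exact (tok_of_edge hP hi.le he.2).1 hu
        · rw [← h3] at hu ⊢
          exact (tok_of_edge hP hi.le he.2).2 hu
      rw [← hua]
      exact Relation.ReflTransGen.single hadj
    · exact Relation.ReflTransGen.tail hu hadj

theorem K_reach (hP : Pth k n a P) (hT : Tok k n R a F) {i : ℕ} (hi : i < k) {u v : Vtx}
    (hu : u ∈ KK n R a P F i) (h : Reach (Fm k n P F ∩ bxz R) u v) : v ∈ KK n R a P F i := by
  unfold Reach at h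
  induction h with
  | refl => exact hu
  | tail _ hs ih => exact K_step hP hT hi ih hs

theorem tip_K (hP : Pth k n a P) {i : ℕ} (hi : i < k) :
    tv k i ∈ KK n R a P F i := Or.inl (hP.tip i hi)

theorem p_box (hP : Pth k n a P) (hnR : n < R) {i : ℕ} (hi : i ≤ k) {v : Vtx} (hv : v ∈ P i) :
    nm v ≤ (R : ℤ) := by
  have h1 := (hP.bd i hi v hv).1
  have h2 := nm_le_nd v
  have h3 : (n : ℤ) < R := by exact_mod_cast hnR
  linarith

/-- the edges of the staircase -/
theorem stair (hP : Pth k n a P) (hk : 2 ≤ k) (s : ℤ) (h0 : -1 ≤ s) (h1 : s < k) :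
    edz s (-1) ∉ Fm k n P F := by
  have hO := hP.o
  have hnO := (hP.bd k le_rfl _ hO).1
  have hn1 : (1 : ℤ) ≤ n := by
    unfold nd at hnO
    simpa using hnO
  have ht0 := hP.tip 0 (by omega)
  have hev : ∀ m : ℕ, 2 * m ≤ k → m < k → ((m : ℤ), (m : ℤ)) ∈ P m := by
    intro m hm hmk
    have h := hP.tip m hmk
    have e : tv k m = ((m : ℤ), (m : ℤ)) := by
      unfold tv Pool.Agent.W658.KG.tp Pool.Agent.W808.KY.scy
      rw [if_pos (by omega)]
      simp only [Prod.mk.injEq]
      push_cast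
      constructor <;> omega
    rwa [e] at h
  have hod : ∀ m : ℕ, 1 ≤ m → 2 * m + 1 ≤ k → ((m : ℤ), (m : ℤ) + 1) ∈ P (k - m) := by
    intro m hm hmk
    have h := hP.tip (k - m) (by omega)
    have e : tv k (k - m) = ((m : ℤ), (m : ℤ) + 1) := by
      unfold tv Pool.Agent.W658.KG.tp Pool.Agent.W808.KY.scy
      rw [if_neg (by omega)]
      have e2 : ((2 * (k - m) + 1 : ℕ) : ℤ) = 2 * ((k : ℤ) - m) + 1 := by
        push_cast [show m ≤ k by omega]
        ring
      rw [e2]
      simp only [Prod.mk.injEq]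
      push_cast
      constructor <;> omega
    rwa [e] at h
  have hod' : ∀ m : ℕ, 2 * m + 1 ≤ k → ((m : ℤ), (m : ℤ) + 1) ∈ P (k - m) := by
    intro m hmk
    rcases Nat.eq_zero_or_pos m with h | h
    · subst h
      simpa using hO
    · exact hod m h hmk
  -- a criterion
  have key : ∀ (e : Edg) (i j : ℕ), i ≤ k → j ≤ k → i ≠ j → src e ∈ P i → tgt e ∈ P j →
      e ∉ Fm k n P F := by
    intro e i j hi hj hij h2 h3 h4
    rcases h4 with ⟨l, hl, h5, h6⟩ | h4
    · by_cases hli : l = i
      · subst hli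
        exact hP.dj l j hi hj hij _ h6 h3
      · exact hP.dj l i hl.le hi hli _ h5 h2
    · exact h4.2 ⟨(hP.bd i hi _ h2).1, (hP.bd j hj _ h3).1⟩
  rcases eq_or_lt_of_le h0 with h | h
  · subst h
    have e : edz (-1) (-1) = ((-1 : ℤ), (0 : ℤ), true) := by
      unfold edz
      norm_num
    rw [e]
    have h00 : ((0 : ℤ), (0 : ℤ)) ∈ P 0 := by
      have := hev 0 (by omega) (by omega)
      simpa using this
    rintro (⟨l, hl, h5, h6⟩ | h4)
    · rw [src_mk] at h5
      rw [tgt_true] at h6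
      by_cases hl0 : l = 0
      · subst hl0
        exact hP.no h5
      · exact hP.dj l 0 hl.le (by omega) hl0 _ h6 (by simpa using h00)
    · apply h4.2
      constructor
      · rw [src_mk]
        unfold nd
        simpa using hn1
      · rw [tgt_true]
        unfold nd
        simp
  · obtain ⟨s', rfl⟩ : ∃ s' : ℕ, s = s' := ⟨s.toNat, by omega⟩
    have hs' : s' < k := by exact_mod_cast h1
    rcases Nat.even_or_odd' s' with ⟨m, hm | hm⟩
    · -- even
      have e : edz (s' : ℤ) (-1) = ((m : ℤ), (m : ℤ), false) := by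
        unfold edz
        rw [if_neg (by omega)]
        simp only [Prod.mk.injEq]
        refine ⟨by omega, by omega, trivial⟩
      rw [e]
      apply key _ m (k - m) (by omega) (by omega) (by omega)
      · rw [src_mk]
        exact hev m (by omega) (by omega)
      · rw [tgt_false]
        exact hod' m (by omega)
    · have e : edz (s' : ℤ) (-1) = ((m : ℤ), (m : ℤ) + 1, true) := by
        unfold edz
        rw [if_pos (by omega)]
        simp only [Prod.mk.injEq]
        refine ⟨by omega, by omega, trivial⟩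
      rw [e]
      apply key _ (k - m) (m + 1) (by omega) (by omega) (by omega)
      · rw [src_mk]
        exact hod' m (by omega)
      · rw [tgt_true]
        have := hev (m + 1) (by omega) (by omega)
        push_cast at this
        exact this

end

end Pool.Agent.W658.KT.FINh

namespace Pool.Agent.W658.KT

open H974 H906.Cyl
open Pool.Agent.H160R2.ML (nm)
open Pool.Agent.W801.OU (bxz)
open Pool.Agent.W658.KG (tv TK)
open Pool.Agent.W658.KT.FINh

theorem t_FIN : S_FIN := by
  intro k n R a P F hk hnR hP hT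
  show TK k R (Fm k n P F)
  have hAn : F ∩ An n R ⊆ Fm k n P F ∩ bxz R := by
    intro e he
    exact ⟨Or.inr ⟨he.1, he.2.2⟩, he.2.1⟩
  have hnotK : ∀ i < k, ∀ j ≤ k, i ≠ j → ∀ v ∈ P j, ¬ Reach (Fm k n P F ∩ bxz R) (tv k i) v := by
    intro i hi j hj hij v hv h
    exact p_not_K hP hT hi hj hij hv (K_reach hP hT hi (tip_K hP hi) h)
  refine ⟨fun s h0 h1 => stair hP hk s h0 h1, ?_, ?_, ?_⟩
  · intro i j hi hj hij
    exact hnotK i hi j hj.le hij _ (hP.tip j hj)
  · intro i hi
    obtain ⟨w, hw, hr⟩ := hT.2.1 i hi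
    refine ⟨w, hw, ?_⟩
    have h1 := hP.con i hi.le _ (hP.tip i hi)
    have h2 : Reach (Fm k n P F ∩ bxz R) (a i) (tv k i) := by
      apply Reach.mono _ h1
      intro e he
      exact ⟨Or.inl ⟨i, hi, he.1, he.2⟩, p_box hP hnR hi.le he.1, p_box hP hnR hi.le he.2⟩
    exact h2.symm.trans (Reach.mono hAn hr)
  · obtain ⟨q, hq, hr⟩ := hT.2.2.2
    refine ⟨q, hq, ?_, ?_⟩
    · intro i hi
      exact hnotK i hi k le_rfl hi.ne _ hP.o
    · have h1 := hP.con k le_rfl _ hP.o
      refine Reach.trans (Reach.symm (Reach.mono ?_ h1)) (Reach.mono ?_ hr)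
      · intro e he
        refine ⟨⟨p_box hP hnR le_rfl he.1, p_box hP hnR le_rfl he.2⟩, ?_⟩
        intro i hi
        exact ⟨hnotK i hi k le_rfl hi.ne _ he.1, hnotK i hi k le_rfl hi.ne _ he.2⟩
      · intro e he
        refine ⟨he.1.1, ?_⟩
        intro i hi
        have h2 := he.2 i hi
        have h3 := tok_of_edge hP hi.le he.1.2
        constructor
        · intro h4
          rcases K_reach hP hT hi (tip_K hP hi) h4 with h5 | h5
          · apply h2.1
            rw [h3.1 h5]
            exact Relation.ReflTransGen.refl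
          · exact h2.1 h5
        · intro h4
          rcases K_reach hP hT hi (tip_K hP hi) h4 with h5 | h5
          · apply h2.2
            rw [h3.2 h5]
            exact Relation.ReflTransGen.refl
          · exact h2.2 h5

end Pool.Agent.W658.KT
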