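import Pool.Agent.W658.KT.Stm

/-!
# Paths inside the rectangle (step `S_INN`)
-/

set_option autoImplicit false

namespace Pool.Agent.W658.KT
open H974 H906.Cyl
open Pool.Agent.H160R2.ML (nm)
open Pool.Agent.W801.OU (bxz)
open Pool.Agent.W658.KG (tv TK tp)
open Pool.Agent.W808.KY (scy)

namespace INN

/-- edges inside a set of vertices -/
abbrev Ed (S : Set Vtx) : Set Edg := {e | src e ∈ S ∧ tgt e ∈ S}

theorem hseg (S : Set Vtx) (y x1 x2 : ℤ) (hx : x1 ≤ x2)
    (h : ∀ x, x1 ≤ x → x ≤ x2 → (x, y) ∈ S) : Reach (Ed S) (x1, y) (x2, y) := by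
  obtain ⟨n, rfl⟩ := Int.le.dest hx
  induction n with
  | zero => simp only [Nat.cast_zero, add_zero]; exact Reach.refl _ _
  | succ n ih =>
    have h1 := ih (by omega) (fun x hx1 hx2 => h x hx1 (by push_cast; omega))
    refine h1.trans (Adj.reach ⟨(x1 + n, y, true), ⟨?_, ?_⟩, Or.inl ⟨rfl, ?_⟩⟩)
    · exact h (x1 + n) (by omega) (by push_cast; omega)
    · rw [tgt_true]
      exact h (x1 + n + 1) (by omega) (by push_cast; omega)
    · rw [tgt_true]
      push_cast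
      rw [add_assoc]

theorem vseg (S : Set Vtx) (x y1 y2 : ℤ) (hy : y1 ≤ y2)
    (h : ∀ y, y1 ≤ y → y ≤ y2 → (x, y) ∈ S) : Reach (Ed S) (x, y1) (x, y2) := by
  obtain ⟨n, rfl⟩ := Int.le.dest hy
  induction n with
  | zero => simp only [Nat.cast_zero, add_zero]; exact Reach.refl _ _
  | succ n ih =>
    have h1 := ih (by omega) (fun y hy1 hy2 => h y hy1 (by push_cast; omega))
    refine h1.trans (Adj.reach ⟨(x, y1 + n, false), ⟨?_, ?_⟩, Or.inl ⟨rfl, ?_⟩⟩)
    · exact h (y1 + n) (by omega) (by push_cast; omega)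
    · rw [tgt_false]
      exact h (y1 + n + 1) (by omega) (by push_cast; omega)
    · rw [tgt_false]
      push_cast
      rw [add_assoc]

theorem tv_lo (k i : ℕ) (h : 2 * i ≤ k) : tv k i = ((i : ℤ), (i : ℤ)) := by
  unfold tv tp scy
  rw [if_pos (by omega)]
  refine Prod.ext ?_ ?_
  · simp only []
    push_cast
    omega
  · simp only []
    push_cast
    omega

theorem tv_hi (k i : ℕ) (h : k < 2 * i) : tv k i = ((k : ℤ) - i, (k : ℤ) - i + 1) := by
  unfold tv tp scy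
  rw [if_neg (by omega)]
  refine Prod.ext ?_ ?_
  · simp only []
    push_cast
    omega
  · simp only []
    push_cast
    omega

/-- the column of the path -/
def cc (k : ℕ) (y0 : ℤ) (i : ℕ) : ℤ := if 0 ≤ y0 then 2 * k + 2 - i else 2 * k + 2 + i

/-- the left end of the row -/
def ss (k i : ℕ) : ℤ := if 2 * i ≤ k then i else k - i

/-- the paths -/
def PI (k : ℕ) (X y0 : ℤ) (i : ℕ) : Set Vtx :=
  {v | (cc k y0 i ≤ v.1 ∧ v.1 ≤ X ∧ v.2 = y0 + i) ∨
    (v.1 = cc k y0 i ∧ ((y0 + i ≤ v.2 ∧ v.2 ≤ i) ∨ (i ≤ v.2 ∧ v.2 ≤ y0 + i))) ∨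
    (ss k i ≤ v.1 ∧ v.1 ≤ cc k y0 i ∧ v.2 = i) ∨
    (k < 2 * i ∧ v.1 = k - i ∧ (k : ℤ) - i + 1 ≤ v.2 ∧ v.2 ≤ i)}

theorem mem_PI (k : ℕ) (X y0 : ℤ) (i : ℕ) (x y : ℤ) : (x, y) ∈ PI k X y0 i ↔
    (cc k y0 i ≤ x ∧ x ≤ X ∧ y = y0 + i) ∨
    (x = cc k y0 i ∧ ((y0 + i ≤ y ∧ y ≤ i) ∨ (i ≤ y ∧ y ≤ y0 + i))) ∨
    (ss k i ≤ x ∧ x ≤ cc k y0 i ∧ y = i) ∨
    (k < 2 * i ∧ x = k - i ∧ (k : ℤ) - i + 1 ≤ y ∧ y ≤ i) := Iff.rfl

end INN

open INN in
theorem t_INN : S_INN := by
  intro k X Y y0 hk hX hY hkY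
  have hc : ∀ i : ℕ, i ≤ k → 2 * (k : ℤ) + 2 - i ≤ cc k y0 i ∧ cc k y0 i ≤ 2 * k + 2 + i := by
    intro i hi
    unfold cc
    split_ifs <;> constructor <;> omega
  have hs : ∀ i : ℕ, i ≤ k → 0 ≤ ss k i ∧ ss k i ≤ k := by
    intro i hi
    unfold ss
    split_ifs <;> constructor <;> omega
  refine ⟨PI k X y0, ?_, ?_, ?_, ?_, ?_, ?_, ?_⟩
  · rintro i hi ⟨x, y⟩ hv
    rw [mem_PI] at hv
    have h1 := hc i hi
    have h2 := hs i hi
    simp only
    have h3 := abs_le.mp (show |y0| ≤ Y - k by omega)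
    rw [abs_le, abs_le]
    rcases hv with hv | hv | hv | hv
    · refine ⟨⟨?_, ?_⟩, ?_, ?_⟩ <;> omega
    · refine ⟨⟨?_, ?_⟩, ?_, ?_⟩ <;> omega
    · refine ⟨⟨?_, ?_⟩, ?_, ?_⟩ <;> omega
    · refine ⟨⟨?_, ?_⟩, ?_, ?_⟩ <;> omega
  · rintro i j hij hj ⟨x, y⟩ hv hw
    rw [mem_PI] at hv hw
    unfold cc ss at hv hw
    by_cases hy : 0 ≤ y0
    · rw [if_pos hy] at hv hw
      by_cases h1 : 2 * i ≤ k
      · rw [if_pos h1] at hv
        by_cases h2 : 2 * j ≤ k
        · rw [if_pos h2] at hw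
          omega
        · rw [if_neg h2] at hw
          omega
      · rw [if_neg h1] at hv
        by_cases h2 : 2 * j ≤ k
        · rw [if_pos h2] at hw
          omega
        · rw [if_neg h2] at hw
          omega
    · rw [if_neg hy] at hv hw
      by_cases h1 : 2 * i ≤ k
      · rw [if_pos h1] at hv
        by_cases h2 : 2 * j ≤ k
        · rw [if_pos h2] at hw
          omega
        · rw [if_neg h2] at hw
          omega
      · rw [if_neg h1] at hv
        by_cases h2 : 2 * j ≤ k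
        · rw [if_pos h2] at hw
          omega
        · rw [if_neg h2] at hw
          omega
  · intro i hi
    rw [mem_PI]
    have h1 := hc i hi
    left
    refine ⟨?_, le_rfl, rfl⟩
    omega
  · intro i hi
    have h1 := hc i hi.le
    by_cases h : 2 * i ≤ k
    · rw [tv_lo k i h, mem_PI]
      right; right; left
      unfold ss
      rw [if_pos h]
      refine ⟨le_rfl, ?_, rfl⟩
      omega
    · rw [tv_hi k i (by omega), mem_PI]
      right; right; right
      refine ⟨by omega, rfl, le_rfl, ?_⟩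
      omega
  · rw [mem_PI]
    right; right; right
    refine ⟨by omega, ?_, ?_, ?_⟩ <;> omega
  · intro h
    rw [mem_PI] at h
    have h1 := hc 0 (by omega)
    have h2 := hs 0 (by omega)
    omega
  · rintro i hi ⟨x, y⟩ hv
    have h1 := hc i hi
    have h2 := hs i hi
    have r1 : ∀ x, cc k y0 i ≤ x → x ≤ X → Reach (Ed (PI k X y0 i)) (X, y0 + i) (x, y0 + i) := by
      intro x hx1 hx2
      refine (hseg _ _ _ _ hx2 fun z hz1 hz2 => ?_).symm
      rw [mem_PI]
      left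
      exact ⟨by omega, hz2, rfl⟩
    have r2 : ∀ y, ((y0 + i ≤ y ∧ y ≤ i) ∨ (i ≤ y ∧ y ≤ y0 + i)) →
        Reach (Ed (PI k X y0 i)) (X, y0 + i) (cc k y0 i, y) := by
      intro y hy
      refine (r1 (cc k y0 i) le_rfl (by omega)).trans ?_
      rcases hy with hy | hy
      · refine vseg _ _ _ _ hy.1 fun z hz1 hz2 => ?_
        rw [mem_PI]
        right; left
        refine ⟨rfl, ?_⟩
        omega
      · refine (vseg _ _ _ _ hy.2 fun z hz1 hz2 => ?_).symm
        rw [mem_PI]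
        right; left
        refine ⟨rfl, ?_⟩
        omega
    have r3 : ∀ x, ss k i ≤ x → x ≤ cc k y0 i → Reach (Ed (PI k X y0 i)) (X, y0 + i) (x, (i : ℤ)) := by
      intro x hx1 hx2
      refine (r2 i (by omega)).trans ?_
      refine (hseg _ _ _ _ hx2 fun z hz1 hz2 => ?_).symm
      rw [mem_PI]
      right; right; left
      exact ⟨by omega, hz2, rfl⟩
    rw [mem_PI] at hv
    rcases hv with hv | hv | hv | hv
    · obtain ⟨ha, hb, rfl⟩ := hv
      exact r1 x ha hb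
    · obtain ⟨rfl, hb⟩ := hv
      exact r2 y hb
    · obtain ⟨ha, hb, rfl⟩ := hv
      exact r3 x ha hb
    · obtain ⟨ha, rfl, hb, hc'⟩ := hv
      have hsi : ss k i = (k : ℤ) - i := by
        unfold ss
        rw [if_neg (by omega)]
      refine (r3 ((k : ℤ) - i) hsi.le (by omega)).trans ?_
      refine (vseg _ _ _ _ hc' fun z hz1 hz2 => ?_).symm
      rw [mem_PI]
      right; right; right
      exact ⟨ha, rfl, by omega, hz2⟩

end Pool.Agent.W658.KT
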