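import Pool.Agent.W658.KT.Stm

/-!
# Normalisation of the tokens: a permutation of the clusters and a rotation
-/

set_option autoImplicit false

namespace Pool.Agent.W658.KT
open H974 H906.Cyl
open Pool.Agent.H160R2.ML (nm)

namespace ORD

/-- position on the boundary of the rotated box -/
def th (n : ℤ) (v : Vtx) : ℤ :=
  if 0 < v.1 ∧ 0 ≤ v.2 then v.2
  else if 0 < v.2 then n - v.1
  else if v.1 < 0 then 2 * n - v.2
  else 3 * n + v.1

/-- distance counterclockwise, in `[0, 4 n)` -/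
def E (n : ℤ) (p v : Vtx) : ℤ :=
  if th n p ≤ th n v then th n v - th n p else th n v - th n p + 4 * n

/-- distance counterclockwise, in `(0, 4 n]` -/
def D (n : ℤ) (p v : Vtx) : ℤ :=
  if th n p < th n v then th n v - th n p else th n v - th n p + 4 * n

theorem abs_spec (x : ℤ) : 0 ≤ x ∧ |x| = x ∨ x < 0 ∧ |x| = -x := by
  rcases lt_or_ge x 0 with h | h
  · exact Or.inr ⟨h, abs_of_neg h⟩
  · exact Or.inl ⟨h, abs_of_nonneg h⟩

theorem th_mem (n : ℤ) (v : Vtx) (hn : 0 < n) (h : nd v = n) : 0 ≤ th n v ∧ th n v < 4 * n := by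
  obtain ⟨x, y⟩ := v
  unfold nd at h
  unfold th
  simp only at *
  rcases abs_spec x with hx | hx <;> rcases abs_spec y with hy | hy <;> split_ifs <;> omega

theorem th_inj (n : ℤ) (v w : Vtx) (hn : 0 < n) (hv : nd v = n) (hw : nd w = n)
    (h : th n v = th n w) : v = w := by
  obtain ⟨x, y⟩ := v
  obtain ⟨x', y'⟩ := w
  unfold nd at hv hw
  unfold th at h
  simp only at *
  rw [Prod.mk.injEq]
  rcases abs_spec x with hx | hx <;> rcases abs_spec y with hy | hy <;>
    rcases abs_spec x' with hx' | hx' <;> rcases abs_spec y' with hy' | hy' <;>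
    split_ifs at h <;> omega

theorem th_rot (n : ℤ) (v : Vtx) (hn : 0 < n) (h : nd v = n) :
    th n (rotV v) = if th n v < 3 * n then th n v + n else th n v - 3 * n := by
  obtain ⟨x, y⟩ := v
  unfold nd at h
  unfold th rotV
  simp only at *
  rcases abs_spec x with hx | hx <;> rcases abs_spec y with hy | hy <;> split_ifs <;> omega

theorem nd_rot (v : Vtx) : nd (rotV v) = nd v := by
  unfold nd rotV
  rw [abs_neg, add_comm]

theorem E_rot (n : ℤ) (p v : Vtx) (hn : 0 < n) (hp : nd p = n) (hv : nd v = n) :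
    E n (rotV p) (rotV v) = E n p v := by
  unfold E
  have h1 := th_mem n p hn hp
  have h2 := th_mem n v hn hv
  rw [th_rot n p hn hp, th_rot n v hn hv]
  split_ifs <;> omega

theorem nd_rots (q : ℕ) (v : Vtx) : nd (rotV^[q] v) = nd v := by
  induction q generalizing v with
  | zero => rfl
  | succ q ih => rw [Function.iterate_succ_apply, ih, nd_rot]

theorem E_rots (n : ℤ) (q : ℕ) (p v : Vtx) (hn : 0 < n) (hp : nd p = n) (hv : nd v = n) :
    E n (rotV^[q] p) (rotV^[q] v) = E n p v := by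
  induction q generalizing p v with
  | zero => rfl
  | succ q ih =>
    rw [Function.iterate_succ_apply, Function.iterate_succ_apply,
      ih _ _ (by rw [nd_rot, hp]) (by rw [nd_rot, hv]), E_rot n p v hn hp hv]

theorem E_D (n : ℤ) (u p v : Vtx) (hn : 0 < n) (hu : nd u = n) (hp : nd p = n) (hv : nd v = n)
    (h : D n u p ≤ D n u v) (h' : D n u v < D n u p + 4 * n) : E n p v = D n u v - D n u p := by
  have h1 := th_mem n p hn hp
  have h2 := th_mem n v hn hv
  have h3 := th_mem n u hn hu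
  unfold D at *
  unfold E
  split_ifs at * <;> omega

theorem D_self (n : ℤ) (u : Vtx) : D n u u = 4 * n := by
  unfold D
  simp

theorem D_pos (n : ℤ) (u v : Vtx) (hn : 0 < n) (hu : nd u = n) (hv : nd v = n) : 0 < D n u v := by
  have h2 := th_mem n v hn hv
  have h3 := th_mem n u hn hu
  unfold D
  split_ifs <;> omega

theorem D_lt (n : ℤ) (u v : Vtx) (hn : 0 < n) (hu : nd u = n) (hv : nd v = n) (h : v ≠ u) :
    D n u v < 4 * n := by
  have h2 := th_mem n v hn hv
  have h3 := th_mem n u hn hu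
  have h4 : th n v ≠ th n u := fun e => h (th_inj n v u hn hv hu e)
  unfold D
  split_ifs <;> omega

theorem D_inj (n : ℤ) (u v w : Vtx) (hn : 0 < n) (hu : nd u = n) (hv : nd v = n) (hw : nd w = n)
    (h : D n u v = D n u w) : v = w := by
  have h2 := th_mem n v hn hv
  have h3 := th_mem n u hn hu
  have h4 := th_mem n w hn hw
  refine th_inj n v w hn hv hw ?_
  unfold D at h
  split_ifs at h <;> omega

/-- the positions of the four sides -/
theorem th_side (n X : ℤ) (v : Vtx) (hX : 0 < X) (hXn : X < n) (hv : nd v = n) :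
    (X < v.1 ∧ 0 ≤ v.2 ∧ v.2 < n - X ∧ th n v = v.2) ∨
    (X < v.1 ∧ v.2 < 0 ∧ X - n < v.2 ∧ th n v = 4 * n + v.2) ∨
    (-X ≤ v.1 ∧ v.1 ≤ X ∧ 0 < v.2 ∧ th n v = n - v.1) ∨
    (v.1 < -X ∧ X - n < v.2 ∧ v.2 < n - X ∧ th n v = 2 * n - v.2) ∨
    (-X ≤ v.1 ∧ v.1 ≤ X ∧ v.2 < 0 ∧ th n v = 3 * n + v.1) := by
  obtain ⟨z, w⟩ := v
  unfold nd at hv
  unfold th
  simp only at *
  rcases abs_spec z with hz | hz <;> rcases abs_spec w with hw | hw <;>
    rw [hz.2, hw.2] at hv <;> split_ifs <;> omega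

/-- the rank in terms of the distance from the first token -/
theorem rk_E (n X : ℤ) (p v : Vtx) (hX : 0 < X) (hXn : X < n) (hp : nd p = n) (hv : nd v = n)
    (hpX : X < p.1) :
    (rk n X p.2 v = 4 * n + p.2 + E n p v ∧ 0 ≤ E n p v ∧ E n p v < n - X - p.2) ∨
    (rk n X p.2 v = 7 * n + p.2 + E n p v ∧ n - X - p.2 ≤ E n p v ∧ E n p v ≤ n + X - p.2) ∨
    (rk n X p.2 v = 10 * n + p.2 + E n p v ∧ n + X - p.2 < E n p v ∧
      E n p v < 3 * n - X - p.2) ∨
    (rk n X p.2 v = 13 * n + p.2 + E n p v ∧ 3 * n - X - p.2 ≤ E n p v ∧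
      E n p v ≤ 3 * n + X - p.2) ∨
    (rk n X p.2 v = 16 * n + p.2 + E n p v ∧ 3 * n + X - p.2 < E n p v ∧ E n p v < 4 * n) := by
  have h1 : ∃ t, th n p = t ∧ (0 ≤ p.2 ∧ p.2 < n - X ∧ t = p.2 ∨
      p.2 < 0 ∧ X - n < p.2 ∧ t = 4 * n + p.2) := by
    rcases th_side n X p hX hXn hp with h | h | h | h | h
    · exact ⟨_, h.2.2.2, Or.inl ⟨h.2.1, h.2.2.1, rfl⟩⟩
    · exact ⟨_, h.2.2.2, Or.inr ⟨h.2.1, h.2.2.1, rfl⟩⟩
    · omega
    · omega
    · omega
  obtain ⟨t, ht, hpt⟩ := h1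
  generalize p.2 = y0 at *
  clear hp hpX
  unfold E
  rw [ht]
  clear ht
  obtain ⟨z, w⟩ := v
  unfold rk
  rcases th_side n X (z, w) hX hXn hv with h | h | h | h | h
  · obtain ⟨a1, a2, a3, a4⟩ := h
    rw [a4]
    simp only at *
    clear a4 hv
    by_cases hy : y0 ≤ w
    · left
      rw [if_pos ⟨a1, hy⟩]
      split_ifs <;> omega
    · right; right; right; right
      rw [if_neg (by omega), if_neg (by rw [abs_le]; omega), if_neg (by omega),
        if_neg (by rw [abs_le]; omega)]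
      split_ifs <;> omega
  · obtain ⟨a1, a2, a3, a4⟩ := h
    rw [a4]
    simp only at *
    clear a4 hv
    by_cases hy : y0 ≤ w
    · left
      rw [if_pos ⟨a1, hy⟩]
      split_ifs <;> omega
    · right; right; right; right
      rw [if_neg (by omega), if_neg (by rw [abs_le]; omega), if_neg (by omega),
        if_neg (by rw [abs_le]; omega)]
      split_ifs <;> omega
  · obtain ⟨a1, a2, a3, a4⟩ := h
    rw [a4]
    simp only at *
    clear a4 hv
    right; left
    rw [if_neg (by omega), if_pos (by rw [abs_le]; omega)]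
    split_ifs <;> omega
  · obtain ⟨a1, a2, a3, a4⟩ := h
    rw [a4]
    simp only at *
    clear a4 hv
    right; right; left
    rw [if_neg (by omega), if_neg (by rw [abs_le]; omega), if_pos (by omega)]
    split_ifs <;> omega
  · obtain ⟨a1, a2, a3, a4⟩ := h
    rw [a4]
    simp only at *
    clear a4 hv
    right; right; right; left
    rw [if_neg (by omega), if_neg (by omega), if_neg (by omega), if_pos (by rw [abs_le]; omega)]
    split_ifs <;> omega

theorem rk_lt (n X : ℤ) (p v w : Vtx) (hX : 0 < X) (hXn : X < n) (hp : nd p = n) (hv : nd v = n)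
    (hw : nd w = n) (hpX : X < p.1) (h : E n p v < E n p w) : rk n X p.2 v < rk n X p.2 w := by
  have h1 := rk_E n X p v hX hXn hp hv hpX
  have h2 := rk_E n X p w hX hXn hp hw hpX
  omega

/-- the window -/
theorem window (k n : ℕ) (c : ℕ → ℤ) : ∃ m : ℕ, m ≤ k + 1 ∧ ∀ i ≤ k,
    ((n : ℤ) / 2 + (4 * k + 8) * m) + (2 * k + 4) ≤ c i ∨
      c i + (2 * k + 4) ≤ ((n : ℤ) / 2 + (4 * k + 8) * m) := by
  by_contra hcon
  push Not at hcon
  have h : ∀ m : Fin (k + 2), ∃ i : Fin (k + 1),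
      c i < ((n : ℤ) / 2 + (4 * k + 8) * (m : ℕ)) + (2 * k + 4) ∧
      ((n : ℤ) / 2 + (4 * k + 8) * (m : ℕ)) < c i + (2 * k + 4) := by
    intro m
    obtain ⟨i, hi, h1, h2⟩ := hcon m (by omega)
    exact ⟨⟨i, by omega⟩, h1, h2⟩
  choose f hf using h
  have hinj : Function.Injective f := by
    intro m m' hmm
    have h1 := hf m
    have h2 := hf m'
    rw [hmm] at h1
    by_contra hne
    have hne' : (m : ℕ) ≠ (m' : ℕ) := fun e => hne (Fin.ext e)
    rcases Nat.lt_or_gt_of_ne hne' with hlt | hlt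
    · have h3 : (m : ℤ) + 1 ≤ (m' : ℤ) := by exact_mod_cast hlt
      have h4 : (4 * (k : ℤ) + 8) * ((m : ℤ) + 1) ≤ (4 * k + 8) * (m' : ℤ) :=
        mul_le_mul_of_nonneg_left h3 (by positivity)
      have h5 := h1.2
      have h6 := h2.2
      have h7 := h1.1
      have h8 := h2.1
      have h9 : (4 * (k : ℤ) + 8) * ((m : ℤ) + 1) = (4 * k + 8) * (m : ℤ) + (4 * k + 8) := by ring
      linarith
    · have h3 : (m' : ℤ) + 1 ≤ (m : ℤ) := by exact_mod_cast hlt
      have h4 : (4 * (k : ℤ) + 8) * ((m' : ℤ) + 1) ≤ (4 * k + 8) * (m : ℤ) :=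
        mul_le_mul_of_nonneg_left h3 (by positivity)
      have h5 := h1.2
      have h6 := h2.2
      have h7 := h1.1
      have h8 := h2.1
      have h9 : (4 * (k : ℤ) + 8) * ((m' : ℤ) + 1) = (4 * k + 8) * (m' : ℤ) + (4 * k + 8) := by ring
      linarith
  have := Fintype.card_le_of_injective f hinj
  simp at this

/-- sorting -/
theorem sorting (k : ℕ) (g : ℕ → ℤ) (hg : ∀ i j, i < k → j < k → g i = g j → i = j) :
    ∃ b : ℕ → ℕ, b k = k ∧ (∀ i < k, b i < k) ∧ (∀ i j, i < k → j < k → b i = b j → i = j) ∧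
      ∀ i j, i < j → j < k → g (b i) < g (b j) := by
  let f : Fin k → ℤ := fun i => g i
  have hf : Function.Injective f := fun i j h => Fin.ext (hg i j i.2 j.2 h)
  have hm : StrictMono (f ∘ Tuple.sort f) :=
    (Tuple.monotone_sort f).strictMono_of_injective (hf.comp (Equiv.injective _))
  refine ⟨fun i => if h : i < k then (Tuple.sort f ⟨i, h⟩ : ℕ) else i, ?_, ?_, ?_, ?_⟩
  · simp
  · intro i hi
    simp only [hi, dite_true]
    exact (Tuple.sort f ⟨i, hi⟩).2
  · intro i j hi hj h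
    simp only [hi, hj, dite_true] at h
    have := (Tuple.sort f).injective (Fin.ext h)
    exact congrArg Fin.val this
  · intro i j hij hj
    have hi : i < k := by omega
    simp only [hi, hj, dite_true]
    exact hm (show (⟨i, hi⟩ : Fin k) < ⟨j, hj⟩ from hij)

theorem main : S_ORD := by
  intro k n a hk hn hnd hinj
  have hn0 : (0 : ℤ) < n := by
    have : 0 < n := lt_of_lt_of_le (by positivity) hn
    exact_mod_cast this
  obtain ⟨m, hm, hwin⟩ := window k n (fun i => |(a i).1|)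
  -- the order
  obtain ⟨b, hbk, hblt, hbinj, hbord⟩ := sorting k (fun i => D n (a k) (a i)) (by
    intro i j hi hj h
    exact hinj i j hi.le hj.le
      (D_inj n (a k) (a i) (a j) hn0 (hnd k le_rfl) (hnd i hi.le) (hnd j hj.le) h))
  have hble : ∀ i ≤ k, b i ≤ k := by
    intro i hi
    rcases hi.lt_or_eq with h | h
    · exact (hblt i h).le
    · rw [h, hbk]
  have hndb : ∀ i ≤ k, nd (a (b i)) = n := fun i hi => hnd _ (hble i hi)
  have hDlt : ∀ i < k, D n (a k) (a (b i)) < 4 * n := by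
    intro i hi
    refine D_lt n (a k) (a (b i)) hn0 (hnd k le_rfl) (hndb i hi.le) ?_
    intro e
    have := hinj _ _ (hble i hi.le) le_rfl e
    have := hblt i hi
    omega
  have hDpos : ∀ i ≤ k, 0 < D n (a k) (a (b i)) := fun i hi =>
    D_pos n (a k) (a (b i)) hn0 (hnd k le_rfl) (hndb i hi)
  have hDord : ∀ i j, i < j → j ≤ k → D n (a k) (a (b i)) < D n (a k) (a (b j)) := by
    intro i j hij hj
    rcases hj.lt_or_eq with h | h
    · exact hbord i j hij h
    · have h1 := hDlt i (by omega)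
      rw [h, hbk, D_self]
      exact h1
  have hDle : ∀ j ≤ k, D n (a k) (a (b j)) ≤ 4 * n := by
    intro j hj
    rcases hj.lt_or_eq with h | h
    · exact (hDlt j h).le
    · rw [h, hbk, D_self]
  have hE : ∀ j ≤ k, E n (a (b 0)) (a (b j)) =
      D n (a k) (a (b j)) - D n (a k) (a (b 0)) := by
    intro j hj
    refine E_D n (a k) (a (b 0)) (a (b j)) hn0 (hnd k le_rfl) (hndb 0 (by omega)) (hndb j hj) ?_ ?_
    · rcases Nat.eq_zero_or_pos j with h | h
      · rw [h]
      · exact (hDord 0 j h hj).le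
    · have h1 := hDle j hj
      have h2 := hDpos 0 (by omega)
      omega
  have hEord : ∀ i j, i < j → j ≤ k → E n (a (b 0)) (a (b i)) < E n (a (b 0)) (a (b j)) := by
    intro i j hij hj
    have h1 := hDord i j hij hj
    rw [hE i (by omega), hE j hj]
    omega
  -- the numbers
  obtain ⟨X, hX⟩ : ∃ X : ℤ, X = (n : ℤ) / 2 + (4 * k + 8) * m := ⟨_, rfl⟩
  have hwin' : ∀ i ≤ k, X + (2 * k + 4) ≤ |(a i).1| ∨ |(a i).1| + (2 * k + 4) ≤ X := by
    intro i hi
    rw [hX]
    exact hwin i hi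
  have hk0 : (1 : ℤ) ≤ k := by exact_mod_cast hk
  have hnZ : 100 * ((k : ℤ) + 2) ^ 2 ≤ n := by exact_mod_cast hn
  have hmZ : (m : ℤ) ≤ k + 1 := by exact_mod_cast hm
  have hm0 : (0 : ℤ) ≤ m := by positivity
  have hb1 : (4 * (k : ℤ) + 8) * m ≤ (4 * k + 8) * (k + 1) :=
    mul_le_mul_of_nonneg_left hmZ (by positivity)
  have hb0 : 0 ≤ (4 * (k : ℤ) + 8) * m := by positivity
  have hhalf : 2 * ((n : ℤ) / 2) ≤ n ∧ (n : ℤ) ≤ 2 * ((n : ℤ) / 2) + 1 := by omega
  have hX1 : 20 * ((k : ℤ) + 2) ≤ X := by nlinarith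
  have hX2 : X + 20 * ((k : ℤ) + 2) ≤ n := by nlinarith
  clear hX hb1 hb0 hhalf hmZ hm0 hwin hm hnZ hn
  -- conclusion from a rotation
  have key : ∀ (q : ℕ) (Y : ℤ), 20 * ((k : ℤ) + 2) ≤ Y → Y + 20 * ((k : ℤ) + 2) ≤ n →
      (∀ i ≤ k, Y + (2 * k + 4) ≤ |(rotV^[q] (a i)).1| ∨
        |(rotV^[q] (a i)).1| + (2 * k + 4) ≤ Y) →
      Y < (rotV^[q] (a (b 0))).1 → Nrm k n Y (fun i => rotV^[q] (a (b i))) := by
    intro q Y hY1 hY2 hw hr
    refine ⟨hY1, hY2, ?_, ?_, hr, ?_⟩
    · intro i hi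
      rw [nd_rots]
      exact hndb i hi
    · intro i hi
      exact hw (b i) (hble i hi)
    · intro i j hij hj
      have hY0 : 0 < Y := by linarith
      have hYn : Y < n := by linarith
      refine rk_lt n Y (rotV^[q] (a (b 0))) _ _ hY0 hYn ?_ ?_ ?_ hr ?_
      · rw [nd_rots]; exact hndb 0 (by omega)
      · rw [nd_rots]; exact hndb i (by omega)
      · rw [nd_rots]; exact hndb j hj
      · rw [E_rots n q _ _ hn0 (hndb 0 (by omega)) (hndb i (by omega)),
          E_rots n q _ _ hn0 (hndb 0 (by omega)) (hndb j hj)]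
        exact hEord i j hij hj
  have hp := hndb 0 (by omega)
  have hpw := hwin' (b 0) (hble 0 (by omega))
  -- window of the rotated tokens
  have w2 : ∀ i ≤ k, (n - X) + (2 * k + 4) ≤ |(a i).2| ∨ |(a i).2| + (2 * k + 4) ≤ n - X := by
    intro i hi
    have h1 := hnd i hi
    unfold nd at h1
    rcases hwin' i hi with h | h
    · right; linarith
    · left; linarith
  rcases th_side n X (a (b 0)) (by linarith) (by linarith) hp with h | h | h | h | h
  · refine ⟨b, 0, X, hbk, hblt, hbinj, key 0 X hX1 hX2 hwin' h.1⟩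
  · refine ⟨b, 0, X, hbk, hblt, hbinj, key 0 X hX1 hX2 hwin' h.1⟩
  · -- on the top
    refine ⟨b, 3, n - X, hbk, hblt, hbinj, key 3 (n - X) (by linarith) (by linarith) ?_ ?_⟩
    · intro i hi
      change _ ≤ |(- -(a i).2 : ℤ)| ∨ |(- -(a i).2 : ℤ)| + _ ≤ _
      rw [neg_neg]
      exact w2 i hi
    · change (n : ℤ) - X < - -(a (b 0)).2
      have h1 := w2 (b 0) (hble 0 (by omega))
      unfold nd at hp
      have h2 : |(a (b 0)).1| ≤ X := abs_le.mpr ⟨h.1, h.2.1⟩
      have h3 : |(a (b 0)).2| = (a (b 0)).2 := abs_of_pos h.2.2.1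
      rcases h1 with h1 | h1
      · linarith
      · exfalso; linarith
  · refine ⟨b, 2, X, hbk, hblt, hbinj, key 2 X hX1 hX2 ?_ ?_⟩
    · intro i hi
      change _ ≤ |(-(a i).1 : ℤ)| ∨ |(-(a i).1 : ℤ)| + _ ≤ _
      rw [abs_neg]
      exact hwin' i hi
    · change X < -(a (b 0)).1
      linarith [h.1]
  · refine ⟨b, 1, n - X, hbk, hblt, hbinj, key 1 (n - X) (by linarith) (by linarith) ?_ ?_⟩
    · intro i hi
      change _ ≤ |(-(a i).2 : ℤ)| ∨ |(-(a i).2 : ℤ)| + _ ≤ _
      rw [abs_neg]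
      exact w2 i hi
    · change (n : ℤ) - X < -(a (b 0)).2
      have h1 := w2 (b 0) (hble 0 (by omega))
      unfold nd at hp
      have h2 : |(a (b 0)).1| ≤ X := abs_le.mpr ⟨h.1, h.2.1⟩
      have h3 : |(a (b 0)).2| = -(a (b 0)).2 := abs_of_neg h.2.2.1
      rcases h1 with h1 | h1
      · linarith
      · exfalso; linarith

end ORD

theorem t_ORD : S_ORD := ORD.main

end Pool.Agent.W658.KT
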