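import Pool.Agent.W658.KT.Stm

set_option autoImplicit false

/-! Task KT-OUT: paths outside the rectangle. -/

namespace Pool.Agent.W658.KT.OutA
open H974 H906.Cyl Pool.Agent.W658.KT

/-- connection inside a set of vertices -/
def R (S : Set Vtx) (u v : Vtx) : Prop := Reach {e | src e ∈ S ∧ tgt e ∈ S} u v

theorem R.tr {S : Set Vtx} {u v w : Vtx} (h : R S u v) (h' : R S v w) : R S u w :=
  Reach.trans h h'

theorem hstep (S : Set Vtx) (q : ℤ) (m : ℕ) : ∀ p : ℤ,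
    (∀ t : ℤ, p ≤ t → t ≤ p + m → ((t, q) : Vtx) ∈ S) → R S (p, q) (p + m, q) := by
  induction m with
  | zero =>
    intro p _
    have e : p + ((0 : ℕ) : ℤ) = p := by simp
    rw [e]
    exact Reach.refl _ _
  | succ m ih =>
    intro p h
    have h1 := ih p (fun t h1 h2 => h t h1 (by push_cast; omega))
    refine h1.tr (Adj.reach ⟨(p + m, q, true), ⟨?_, ?_⟩, Or.inl ⟨rfl, ?_⟩⟩)
    · exact h (p + m) (by omega) (by push_cast; omega)
    · exact h (p + m + 1) (by omega) (by push_cast; omega)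
    · show ((p + m + 1, q) : Vtx) = _
      push_cast
      rw [add_assoc]

theorem vstep (S : Set Vtx) (p : ℤ) (m : ℕ) : ∀ q : ℤ,
    (∀ t : ℤ, q ≤ t → t ≤ q + m → ((p, t) : Vtx) ∈ S) → R S (p, q) (p, q + m) := by
  induction m with
  | zero =>
    intro q _
    have e : q + ((0 : ℕ) : ℤ) = q := by simp
    rw [e]
    exact Reach.refl _ _
  | succ m ih =>
    intro q h
    have h1 := ih q (fun t h1 h2 => h t h1 (by push_cast; omega))
    refine h1.tr (Adj.reach ⟨(p, q + m, false), ⟨?_, ?_⟩, Or.inl ⟨rfl, ?_⟩⟩)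
    · exact h (q + m) (by omega) (by push_cast; omega)
    · exact h (q + m + 1) (by omega) (by push_cast; omega)
    · show ((p, q + m + 1) : Vtx) = _
      push_cast
      rw [add_assoc]

/-- horizontal segment -/
def hs (c a b : ℤ) : Set Vtx := {v | v.2 = c ∧ a ≤ v.1 ∧ v.1 ≤ b}

/-- vertical segment -/
def vs (c a b : ℤ) : Set Vtx := {v | v.1 = c ∧ a ≤ v.2 ∧ v.2 ≤ b}

theorem hle {S : Set Vtx} {c a b : ℤ} (h : hs c a b ⊆ S) {u v : Vtx} (hu : u ∈ hs c a b)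
    (hv : v ∈ hs c a b) (huv : u.1 ≤ v.1) : R S u v := by
  obtain ⟨p, q⟩ := u
  obtain ⟨p', q'⟩ := v
  obtain ⟨h1, h2, h3⟩ := hu
  obtain ⟨h4, h5, h6⟩ := hv
  simp only at h1 h2 h3 h4 h5 h6 huv
  subst h1
  subst h4
  obtain ⟨m, hm⟩ := Int.eq_ofNat_of_zero_le (show 0 ≤ p' - p by omega)
  have h7 := hstep S q' m p (fun t h8 h9 => h ⟨rfl, by show a ≤ t; omega, by show t ≤ b; omega⟩)
  have h8 : p' = p + m := by omega
  rw [h8]
  exact h7

theorem hcon {S : Set Vtx} {c a b : ℤ} (h : hs c a b ⊆ S) {u v : Vtx} (hu : u ∈ hs c a b)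
    (hv : v ∈ hs c a b) : R S u v := by
  rcases le_total u.1 v.1 with h1 | h1
  · exact hle h hu hv h1
  · exact (hle h hv hu h1).symm

theorem vle {S : Set Vtx} {c a b : ℤ} (h : vs c a b ⊆ S) {u v : Vtx} (hu : u ∈ vs c a b)
    (hv : v ∈ vs c a b) (huv : u.2 ≤ v.2) : R S u v := by
  obtain ⟨p, q⟩ := u
  obtain ⟨p', q'⟩ := v
  obtain ⟨h1, h2, h3⟩ := hu
  obtain ⟨h4, h5, h6⟩ := hv
  simp only at h1 h2 h3 h4 h5 h6 huv
  subst h1
  subst h4
  obtain ⟨m, hm⟩ := Int.eq_ofNat_of_zero_le (show 0 ≤ q' - q by omega)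
  have h7 := vstep S p' m q (fun t h8 h9 => h ⟨rfl, by show a ≤ t; omega, by show t ≤ b; omega⟩)
  have h8 : q' = q + m := by omega
  rw [h8]
  exact h7

theorem vcon {S : Set Vtx} {c a b : ℤ} (h : vs c a b ⊆ S) {u v : Vtx} (hu : u ∈ vs c a b)
    (hv : v ∈ vs c a b) : R S u v := by
  rcases le_total u.2 v.2 with h1 | h1
  · exact vle h hu hv h1
  · exact (vle h hv hu h1).symm

/-- the paths, by the side of the token -/
def P1 (X y0 k i x y : ℤ) : Set Vtx :=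
  hs y (X - i) x ∪ (vs (X - i) (y0 + i) y ∪ hs (y0 + i) (X - k - 1) (X - i))

def P2 (X Y y0 k i x y : ℤ) : Set Vtx :=
  vs x (Y - i) y ∪ (hs (Y - i) x (X - i) ∪ (vs (X - i) (y0 + i) (Y - i) ∪
    hs (y0 + i) (X - k - 1) (X - i)))

def P3 (X Y y0 k i x y : ℤ) : Set Vtx :=
  hs y x (-(X - i)) ∪ (vs (-(X - i)) y (Y - i) ∪ (hs (Y - i) (-(X - i)) (X - i) ∪
    (vs (X - i) (y0 + i) (Y - i) ∪ hs (y0 + i) (X - k - 1) (X - i))))

def P4 (X Y y0 k i x y : ℤ) : Set Vtx :=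
  vs x y (-(Y - i)) ∪ (hs (-(Y - i)) (-(X - i)) x ∪ (vs (-(X - i)) (-(Y - i)) (Y - i) ∪
    (hs (Y - i) (-(X - i)) (X - i) ∪
    (vs (X - i) (y0 + i) (Y - i) ∪ hs (y0 + i) (X - k - 1) (X - i)))))

def P5 (X Y y0 k i x y : ℤ) : Set Vtx :=
  hs y (X - i) x ∪ (vs (X - i) (-(Y - i)) y ∪ (hs (-(Y - i)) (-(X - i)) (X - i) ∪
    (vs (-(X - i)) (-(Y - i)) (Y - i) ∪ (hs (Y - i) (-(X - i)) (X - i) ∪
    (vs (X - i) (y0 + i) (Y - i) ∪ hs (y0 + i) (X - k - 1) (X - i))))))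

/-- the side of a token -/
def sd (X y0 : ℤ) (v : Vtx) : ℤ :=
  if X < v.1 ∧ y0 ≤ v.2 then 1
  else if |v.1| ≤ X ∧ 0 < v.2 then 2
  else if v.1 < -X then 3
  else if |v.1| ≤ X then 4
  else 5

def PS (s X Y y0 k i x y : ℤ) : Set Vtx :=
  if s = 1 then P1 X y0 k i x y
  else if s = 2 then P2 X Y y0 k i x y
  else if s = 3 then P3 X Y y0 k i x y
  else if s = 4 then P4 X Y y0 k i x y
  else P5 X Y y0 k i x y

/-- what is known about a token -/
def Fct (s r n X Y y0 k i x y : ℤ) : Prop :=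
  (s = 1 ∧ r = 4 * n + y ∧ X + 2 * k + 4 ≤ x ∧ y0 + i ≤ y ∧ y ≤ Y - 2 * k - 4 ∧
    -(Y - 2 * k - 4) ≤ y) ∨
  (s = 2 ∧ r = 8 * n - x ∧ -(X - 2 * k - 4) ≤ x ∧ x ≤ X - 2 * k - 4 ∧ Y + 2 * k + 4 ≤ y ∧ y ≤ n) ∨
  (s = 3 ∧ r = 12 * n - y ∧ x ≤ -(X + 2 * k + 4) ∧ y ≤ Y - 2 * k - 4 ∧ -(Y - 2 * k - 4) ≤ y ∧
    -n ≤ x) ∨
  (s = 4 ∧ r = 16 * n + x ∧ -(X - 2 * k - 4) ≤ x ∧ x ≤ X - 2 * k - 4 ∧ y ≤ -(Y + 2 * k + 4) ∧
    -n ≤ y) ∨
  (s = 5 ∧ r = 20 * n + y ∧ X + 2 * k + 4 ≤ x ∧ y < y0 ∧ y ≤ Y - 2 * k - 4 ∧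
    -(Y - 2 * k - 4) ≤ y)

theorem fct0 {k n : ℕ} {X : ℤ} {a : ℕ → Vtx} (h : Nrm k n X a) {i : ℕ} (hi : i ≤ k) :
    Fct (sd X (a 0).2 (a i)) (rk n X (a 0).2 (a i)) n X (n - X) (a 0).2 k 0 (a i).1 (a i).2 := by
  have h1 := h.nn i hi
  have h2 := h.win i hi
  have h3 := h.x1
  have h4 := h.x2
  unfold nd at h1
  unfold Fct sd rk
  generalize (a i).1 = x at *
  generalize (a i).2 = y at *
  generalize (a 0).2 = y0 at *
  have f1 := le_abs_self x
  have f2 := neg_le_abs x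
  have f3 := le_abs_self y
  have f4 := neg_le_abs y
  have f5 := abs_choice x
  have f6 := abs_choice y
  generalize |x| = u at *
  generalize |y| = v at *
  by_cases c1 : X < x ∧ y0 ≤ y
  · rw [if_pos c1, if_pos c1]
    left
    refine ⟨rfl, rfl, ?_, ?_, ?_, ?_⟩ <;> omega
  rw [if_neg c1, if_neg c1]
  right
  by_cases c2 : u ≤ X ∧ 0 < y
  · rw [if_pos c2, if_pos c2]
    left
    refine ⟨rfl, rfl, ?_, ?_, ?_, ?_⟩ <;> omega
  rw [if_neg c2, if_neg c2]
  right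
  by_cases c3 : x < -X
  · rw [if_pos c3, if_pos c3]
    left
    refine ⟨rfl, rfl, ?_, ?_, ?_, ?_⟩ <;> omega
  rw [if_neg c3, if_neg c3]
  right
  by_cases c4 : u ≤ X
  · rw [if_pos c4, if_pos c4]
    left
    refine ⟨rfl, rfl, ?_, ?_, ?_, ?_⟩ <;> omega
  rw [if_neg c4, if_neg c4]
  right
  refine ⟨rfl, rfl, ?_, ?_, ?_, ?_⟩ <;> omega

theorem fct {k n : ℕ} {X : ℤ} {a : ℕ → Vtx} (h : Nrm k n X a) : ∀ i : ℕ, i ≤ k →
    Fct (sd X (a 0).2 (a i)) (rk n X (a 0).2 (a i)) n X (n - X) (a 0).2 k i (a i).1 (a i).2 := by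
  intro i
  induction i with
  | zero =>
    intro hi
    exact_mod_cast fct0 h hi
  | succ i ih =>
    intro hi
    have h1 := ih (by omega)
    have h2 := fct0 h hi
    have h3 := h.ord i (i + 1) (by omega) hi
    have h4 := h.x1
    have h5 := h.x2
    unfold Fct at *
    push_cast
    generalize sd X (a 0).2 (a i) = s at *
    generalize sd X (a 0).2 (a (i + 1)) = s' at *
    generalize rk n X (a 0).2 (a i) = r at *
    generalize rk n X (a 0).2 (a (i + 1)) = r' at *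
    generalize (a i).1 = x at *
    generalize (a i).2 = y at *
    generalize (a (i + 1)).1 = x' at *
    generalize (a (i + 1)).2 = y' at *
    generalize (a 0).2 = y0 at *
    rcases h2 with h2 | h2 | h2 | h2 | h2
    · left
      obtain ⟨g1, g2, g3, g4, g5, g6⟩ := h2
      refine ⟨g1, g2, g3, ?_, g5, g6⟩
      rcases h1 with h1 | h1 | h1 | h1 | h1 <;> obtain ⟨k1, k2, k3, k4, k5, k6⟩ := h1 <;> omega
    · exact Or.inr (Or.inl h2)
    · exact Or.inr (Or.inr (Or.inl h2))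
    · exact Or.inr (Or.inr (Or.inr (Or.inl h2)))
    · exact Or.inr (Or.inr (Or.inr (Or.inr h2)))

/-- the numbers -/
structure Hy (n X Y y0 k i : ℤ) : Prop where
  hn : X + Y = n
  hX : 20 * (k + 2) ≤ X
  hY : 20 * (k + 2) ≤ Y
  hk : 1 ≤ k
  i0 : 0 ≤ i
  ik : i ≤ k
  y1 : y0 ≤ Y - 2 * k - 4
  y2 : -(Y - 2 * k - 4) ≤ y0

theorem ps1 (X Y y0 k i x y : ℤ) : PS 1 X Y y0 k i x y = P1 X y0 k i x y := by
  unfold PS; rw [if_pos rfl]

theorem ps2 (X Y y0 k i x y : ℤ) : PS 2 X Y y0 k i x y = P2 X Y y0 k i x y := by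
  unfold PS; rw [if_neg (by norm_num), if_pos rfl]

theorem ps3 (X Y y0 k i x y : ℤ) : PS 3 X Y y0 k i x y = P3 X Y y0 k i x y := by
  unfold PS; rw [if_neg (by norm_num), if_neg (by norm_num), if_pos rfl]

theorem ps4 (X Y y0 k i x y : ℤ) : PS 4 X Y y0 k i x y = P4 X Y y0 k i x y := by
  unfold PS; rw [if_neg (by norm_num), if_neg (by norm_num), if_neg (by norm_num), if_pos rfl]

theorem ps5 (X Y y0 k i x y : ℤ) : PS 5 X Y y0 k i x y = P5 X Y y0 k i x y := by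
  unfold PS; rw [if_neg (by norm_num), if_neg (by norm_num), if_neg (by norm_num),
    if_neg (by norm_num)]

/-- final part of `bnd` -/
theorem bnd0 {n X Y k x y p q : ℤ} (h : |p| + |q| ≤ n) (h1 : |p| + |q| = n → p = x ∧ q = y)
    (h2 : X - k - 2 < |p| ∨ Y - k - 2 < |q|) :
    nd (p, q) ≤ n ∧ (nd (p, q) = n → ((p, q) : Vtx) = (x, y)) ∧
      ¬ (|p| ≤ X - k - 2 ∧ |q| ≤ Y - k - 2) := by
  refine ⟨h, fun h3 => ?_, by omega⟩
  obtain ⟨h4, h5⟩ := h1 h3
  rw [h4, h5]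

theorem bnd {s r n X Y y0 k i x y : ℤ} (hy : Hy n X Y y0 k i) (hF : Fct s r n X Y y0 k i x y)
    (h0 : 1 ≤ i ∨ (s = 1 ∧ y = y0)) (hn : |x| + |y| = n) {v : Vtx}
    (hv : v ∈ PS s X Y y0 k i x y) :
    nd v ≤ n ∧ (nd v = n → v = (x, y)) ∧ ¬ (|v.1| ≤ X - k - 2 ∧ |v.2| ≤ Y - k - 2) := by
  obtain ⟨p, q⟩ := v
  obtain ⟨g1, g2, g3, g4, g5, g6, g7, g8⟩ := hy
  have f1 := le_abs_self p
  have f2 := neg_le_abs p
  have f3 := le_abs_self q
  have f4 := neg_le_abs q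
  have f5 := abs_choice p
  have f6 := abs_choice q
  have f7 := le_abs_self x
  have f8 := neg_le_abs x
  have f9 := le_abs_self y
  have f10 := neg_le_abs y
  have f11 := abs_choice x
  have f12 := abs_choice y
  rcases hF with hF | hF | hF | hF | hF <;> obtain ⟨rfl, k2, k3, k4, k5, k6⟩ := hF
  · rw [ps1] at hv
    rcases hv with hv | hv | hv <;> obtain ⟨e1, e2, e3⟩ := hv <;> simp only at e1 e2 e3 <;>
      subst e1 <;> refine bnd0 ?_ ?_ ?_ <;> omega
  · rw [ps2] at hv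
    rcases hv with hv | hv | hv | hv <;> obtain ⟨e1, e2, e3⟩ := hv <;> simp only at e1 e2 e3 <;>
      subst e1 <;> refine bnd0 ?_ ?_ ?_ <;> omega
  · rw [ps3] at hv
    rcases hv with hv | hv | hv | hv | hv <;> obtain ⟨e1, e2, e3⟩ := hv <;>
      simp only at e1 e2 e3 <;> subst e1 <;> refine bnd0 ?_ ?_ ?_ <;> omega
  · rw [ps4] at hv
    rcases hv with hv | hv | hv | hv | hv | hv <;> obtain ⟨e1, e2, e3⟩ := hv <;>
      simp only at e1 e2 e3 <;> subst e1 <;> refine bnd0 ?_ ?_ ?_ <;> omega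
  · rw [ps5] at hv
    rcases hv with hv | hv | hv | hv | hv | hv | hv <;> obtain ⟨e1, e2, e3⟩ := hv <;>
      simp only at e1 e2 e3 <;> subst e1 <;> refine bnd0 ?_ ?_ ?_ <;> omega

/-- a point of a segment of `P i` is not in `P j` -/
theorem dis {s s' r r' n X Y y0 k i j x y x' y' : ℤ} (hy : Hy n X Y y0 k i) (hy' : Hy n X Y y0 k j)
    (hij : i < j) (hr : r < r') (hF : Fct s r n X Y y0 k i x y) (hF' : Fct s' r' n X Y y0 k j x' y')
    {v : Vtx} (hv : v ∈ PS s X Y y0 k i x y) (hv' : v ∈ PS s' X Y y0 k j x' y') : False := by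
  obtain ⟨p, q⟩ := v
  obtain ⟨g1, g2, g3, g4, g5, g6, g7, g8⟩ := hy
  obtain ⟨_, _, _, _, _, g9, _, _⟩ := hy'
  rcases hF with hF | hF | hF | hF | hF <;> obtain ⟨rfl, k2, k3, k4, k5, k6⟩ := hF <;>
    rcases hF' with hF' | hF' | hF' | hF' | hF' <;> obtain ⟨rfl, l2, l3, l4, l5, l6⟩ := hF' <;>
    first
    | omega
    | (simp only [ps1, ps2, ps3, ps4, ps5, P1, P2, P3, P4, P5, hs, vs, Set.mem_union,
        Set.mem_ofPred_eq] at hv hv'
       omega)

theorem mh {c a b p : ℤ} (h1 : a ≤ p) (h2 : p ≤ b) : ((p, c) : Vtx) ∈ hs c a b := ⟨rfl, h1, h2⟩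

theorem mv {c a b q : ℤ} (h1 : a ≤ q) (h2 : q ≤ b) : ((c, q) : Vtx) ∈ vs c a b := ⟨rfl, h1, h2⟩

theorem hch {S T : Set Vtx} {c a b : ℤ} (w : Vtx) {u : Vtx} (h : hs c a b ∪ T ⊆ S)
    (hu : u ∈ hs c a b) (hw : w ∈ hs c a b) (hT : T ⊆ S → ∀ v ∈ T, R S w v) :
    ∀ v ∈ hs c a b ∪ T, R S u v := by
  intro v hv
  have h1 : hs c a b ⊆ S := fun z hz => h (Or.inl hz)
  rcases hv with hv | hv
  · exact hcon h1 hu hv
  · exact (hcon h1 hu hw).tr (hT (fun z hz => h (Or.inr hz)) v hv)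

theorem vch {S T : Set Vtx} {c a b : ℤ} (w : Vtx) {u : Vtx} (h : vs c a b ∪ T ⊆ S)
    (hu : u ∈ vs c a b) (hw : w ∈ vs c a b) (hT : T ⊆ S → ∀ v ∈ T, R S w v) :
    ∀ v ∈ vs c a b ∪ T, R S u v := by
  intro v hv
  have h1 : vs c a b ⊆ S := fun z hz => h (Or.inl hz)
  rcases hv with hv | hv
  · exact vcon h1 hu hv
  · exact (vcon h1 hu hw).tr (hT (fun z hz => h (Or.inr hz)) v hv)

theorem con {s r n X Y y0 k i x y : ℤ} (hy : Hy n X Y y0 k i) (hF : Fct s r n X Y y0 k i x y) :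
    ∀ v ∈ PS s X Y y0 k i x y, R (PS s X Y y0 k i x y) (x, y) v := by
  obtain ⟨g1, g2, g3, g4, g5, g6, g7, g8⟩ := hy
  rcases hF with hF | hF | hF | hF | hF <;> obtain ⟨rfl, k2, k3, k4, k5, k6⟩ := hF
  · rw [ps1]
    exact hch (X - i, y) subset_rfl (mh (by omega) (by omega)) (mh (by omega) (by omega))
      (fun h => vch (X - i, y0 + i) h (mv (by omega) (by omega)) (mv (by omega) (by omega))
      (fun h v hv => hcon h (mh (by omega) (by omega)) hv))
  · rw [ps2]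
    exact vch (x, Y - i) subset_rfl (mv (by omega) (by omega)) (mv (by omega) (by omega))
      (fun h => hch (X - i, Y - i) h (mh (by omega) (by omega)) (mh (by omega) (by omega))
      (fun h => vch (X - i, y0 + i) h (mv (by omega) (by omega)) (mv (by omega) (by omega))
      (fun h v hv => hcon h (mh (by omega) (by omega)) hv)))
  · rw [ps3]
    exact hch (-(X - i), y) subset_rfl (mh (by omega) (by omega)) (mh (by omega) (by omega))
      (fun h => vch (-(X - i), Y - i) h (mv (by omega) (by omega)) (mv (by omega) (by omega))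
      (fun h => hch (X - i, Y - i) h (mh (by omega) (by omega)) (mh (by omega) (by omega))
      (fun h => vch (X - i, y0 + i) h (mv (by omega) (by omega)) (mv (by omega) (by omega))
      (fun h v hv => hcon h (mh (by omega) (by omega)) hv))))
  · rw [ps4]
    exact vch (x, -(Y - i)) subset_rfl (mv (by omega) (by omega)) (mv (by omega) (by omega))
      (fun h => hch (-(X - i), -(Y - i)) h (mh (by omega) (by omega)) (mh (by omega) (by omega))
      (fun h => vch (-(X - i), Y - i) h (mv (by omega) (by omega)) (mv (by omega) (by omega))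
      (fun h => hch (X - i, Y - i) h (mh (by omega) (by omega)) (mh (by omega) (by omega))
      (fun h => vch (X - i, y0 + i) h (mv (by omega) (by omega)) (mv (by omega) (by omega))
      (fun h v hv => hcon h (mh (by omega) (by omega)) hv)))))
  · rw [ps5]
    exact hch (X - i, y) subset_rfl (mh (by omega) (by omega)) (mh (by omega) (by omega))
      (fun h => vch (X - i, -(Y - i)) h (mv (by omega) (by omega)) (mv (by omega) (by omega))
      (fun h => hch (-(X - i), -(Y - i)) h (mh (by omega) (by omega)) (mh (by omega) (by omega))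
      (fun h => vch (-(X - i), Y - i) h (mv (by omega) (by omega)) (mv (by omega) (by omega))
      (fun h => hch (X - i, Y - i) h (mh (by omega) (by omega)) (mh (by omega) (by omega))
      (fun h => vch (X - i, y0 + i) h (mv (by omega) (by omega)) (mv (by omega) (by omega))
      (fun h v hv => hcon h (mh (by omega) (by omega)) hv))))))

theorem mt {s r n X Y y0 k i x y : ℤ} (hy : Hy n X Y y0 k i) (hF : Fct s r n X Y y0 k i x y) :
    ((x, y) : Vtx) ∈ PS s X Y y0 k i x y := by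
  obtain ⟨g1, g2, g3, g4, g5, g6, g7, g8⟩ := hy
  rcases hF with hF | hF | hF | hF | hF <;> obtain ⟨rfl, k2, k3, k4, k5, k6⟩ := hF
  · rw [ps1]; exact Or.inl (mh (by omega) (by omega))
  · rw [ps2]; exact Or.inl (mv (by omega) (by omega))
  · rw [ps3]; exact Or.inl (mh (by omega) (by omega))
  · rw [ps4]; exact Or.inl (mv (by omega) (by omega))
  · rw [ps5]; exact Or.inl (mh (by omega) (by omega))

theorem mr {s r n X Y y0 k i x y : ℤ} (hy : Hy n X Y y0 k i) (hF : Fct s r n X Y y0 k i x y) :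
    ((X - k - 1, y0 + i) : Vtx) ∈ PS s X Y y0 k i x y := by
  obtain ⟨g1, g2, g3, g4, g5, g6, g7, g8⟩ := hy
  have h : ((X - k - 1, y0 + i) : Vtx) ∈ hs (y0 + i) (X - k - 1) (X - i) :=
    mh (by omega) (by omega)
  rcases hF with hF | hF | hF | hF | hF <;> obtain ⟨rfl, k2, k3, k4, k5, k6⟩ := hF
  · rw [ps1]; exact Or.inr (Or.inr h)
  · rw [ps2]; exact Or.inr (Or.inr (Or.inr h))
  · rw [ps3]; exact Or.inr (Or.inr (Or.inr (Or.inr h)))
  · rw [ps4]; exact Or.inr (Or.inr (Or.inr (Or.inr (Or.inr h))))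
  · rw [ps5]; exact Or.inr (Or.inr (Or.inr (Or.inr (Or.inr (Or.inr h)))))

end Pool.Agent.W658.KT.OutA

namespace Pool.Agent.W658.KT
open H974 H906.Cyl OutA

theorem t_OUT : S_OUT := by
  intro k n X a hk h
  have hF := fct h
  have hx1 := h.x1
  have hx2 := h.x2
  have hrt := h.rt
  have hF0 := hF 0 (Nat.zero_le k)
  have hs0 : sd X (a 0).2 (a 0) = 1 := by
    unfold sd
    rw [if_pos ⟨hrt, le_rfl⟩]
  have hy12 : (a 0).2 ≤ (n : ℤ) - X - 2 * k - 4 ∧ -((n : ℤ) - X - 2 * k - 4) ≤ (a 0).2 := by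
    unfold Fct at hF0
    rw [hs0] at hF0
    push_cast at hF0
    omega
  have hH : ∀ i : ℕ, i ≤ k → Hy n X (n - X) (a 0).2 k i := by
    intro i hi
    refine ⟨by ring, hx1, by linarith, by exact_mod_cast hk, by positivity, by exact_mod_cast hi,
      hy12.1, hy12.2⟩
  refine ⟨fun i => PS (sd X (a 0).2 (a i)) X (n - X) (a 0).2 k i (a i).1 (a i).2, ?_, ?_, ?_, ?_⟩
  · intro i hi v hv
    refine bnd (hH i hi) (hF i hi) ?_ (h.nn i hi) hv
    rcases Nat.eq_zero_or_pos i with h0 | h0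
    · right
      subst h0
      exact ⟨hs0, rfl⟩
    · left
      exact_mod_cast h0
  · intro i j hij hj v hv hv'
    exact dis (hH i (by omega)) (hH j hj) (by exact_mod_cast hij) (h.ord i j hij hj)
      (hF i (by omega)) (hF j hj) hv hv'
  · intro i hi
    exact ⟨mt (hH i hi) (hF i hi), mr (hH i hi) (hF i hi)⟩
  · intro i hi v hv
    exact con (hH i hi) (hF i hi) v hv

end Pool.Agent.W658.KT
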