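import Pool.Agent.W658.KT.Stm

/-! # Union of the two parts of the system of paths (t_PTH) -/

set_option autoImplicit false

namespace Pool.Agent.W658.KT
open H974 H906.Cyl
open Pool.Agent.H160R2.ML (nm)
open Pool.Agent.W801.OU (bxz)
open Pool.Agent.W658.KG (tv TK)

theorem t_PTH : S_OUT → S_INN → S_PTH := by
  intro hO hI k n X a hk hN
  obtain ⟨P, hP1, hP2, hP3, hP4⟩ := hO k n X a (by omega) hN
  have hx1 := hN.x1
  have hx2 := hN.x2
  have hk0 : (2 : ℤ) ≤ k := by exact_mod_cast hk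
  have hy0 : |(a 0).2| + k ≤ n - X - k - 2 := by
    have h1 := hN.nn 0 (Nat.zero_le _)
    have h2 := hN.win 0 (Nat.zero_le _)
    have h3 := hN.rt
    unfold nd at h1
    have h4 : |(a 0).1| = (a 0).1 := abs_of_pos (by linarith)
    rcases h2 with h2 | h2 <;> linarith
  obtain ⟨Q, hQ1, hQ2, hQ3, hQ4, hQ5, hQ6, hQ7⟩ := hI k (X - k - 2) (n - X - k - 2) (a 0).2 hk
    (by linarith) hy0 (by linarith)
  have hPQ : ∀ i j, i ≤ k → j ≤ k → ∀ v, v ∈ P i → v ∉ Q j := by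
    intro i j hi hj v hv hv'
    exact (hP1 i hi v hv).2.2 (hQ1 j hj v hv')
  have hPP : ∀ i j, i ≤ k → j ≤ k → i ≠ j → ∀ v, v ∈ P i → v ∉ P j := by
    intro i j hi hj hij v hv hv'
    rcases lt_or_gt_of_ne hij with h | h
    · exact hP2 i j h hj v hv hv'
    · exact hP2 j i h hi v hv' hv
  have hQQ : ∀ i j, i ≤ k → j ≤ k → i ≠ j → ∀ v, v ∈ Q i → v ∉ Q j := by
    intro i j hi hj hij v hv hv'
    rcases lt_or_gt_of_ne hij with h | h
    · exact hQ2 i j h hj v hv hv'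
    · exact hQ2 j i h hi v hv' hv
  refine ⟨fun i => P i ∪ Q i, ?_, ?_, ?_, ?_, ?_, ?_, ?_⟩
  · intro i hi v hv
    rcases hv with hv | hv
    · exact ⟨(hP1 i hi v hv).1, (hP1 i hi v hv).2.1⟩
    · have h1 := hQ1 i hi v hv
      have h2 : nd v < n := by
        unfold nd
        linarith [h1.1, h1.2]
      exact ⟨h2.le, fun h => absurd h h2.ne⟩
  · intro i j hi hj hij v hv hv'
    rcases hv with hv | hv <;> rcases hv' with hv' | hv'
    · exact hPP i j hi hj hij v hv hv'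
    · exact hPQ i j hi hj v hv hv'
    · exact hPQ j i hj hi v hv' hv
    · exact hQQ i j hi hj hij v hv hv'
  · intro i hi
    exact Or.inl (hP3 i hi).1
  · intro i hi
    exact Or.inr (hQ4 i hi)
  · exact Or.inr hQ5
  · intro h
    rcases h with h | h
    · refine (hP1 0 (Nat.zero_le _) _ h).2.2 ⟨?_, ?_⟩
      · show |(-1 : ℤ)| ≤ X - k - 2
        rw [abs_neg, abs_one]
        linarith
      · show |(0 : ℤ)| ≤ n - X - k - 2
        rw [abs_zero]
        linarith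
    · exact hQ6 h
  · intro i hi v hv
    have hPm : ({e | src e ∈ P i ∧ tgt e ∈ P i} : Set Edg) ⊆
        {e | src e ∈ P i ∪ Q i ∧ tgt e ∈ P i ∪ Q i} := fun e he => ⟨Or.inl he.1, Or.inl he.2⟩
    have hQm : ({e | src e ∈ Q i ∧ tgt e ∈ Q i} : Set Edg) ⊆
        {e | src e ∈ P i ∪ Q i ∧ tgt e ∈ P i ∪ Q i} := fun e he => ⟨Or.inr he.1, Or.inr he.2⟩
    rcases hv with hv | hv
    · exact (hP4 i hi v hv).mono hPm
    · have h1 : Reach {e | src e ∈ P i ∪ Q i ∧ tgt e ∈ P i ∪ Q i} (a i)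
          (X - k - 1, (a 0).2 + i) := (hP4 i hi _ (hP3 i hi).2).mono hPm
      have e1 : ((X - k - 2 + 1, (a 0).2 + i) : Vtx) = (X - k - 1, (a 0).2 + i) := by
        rw [Prod.mk.injEq]
        exact ⟨by ring, rfl⟩
      have h2 : Reach {e | src e ∈ P i ∪ Q i ∧ tgt e ∈ P i ∪ Q i}
          (X - k - 1, (a 0).2 + i) (X - k - 2, (a 0).2 + i) := by
        refine Adj.reach ⟨(X - k - 2, (a 0).2 + i, true), ⟨?_, ?_⟩, Or.inr ⟨rfl, ?_⟩⟩
        · rw [src_mk]
          exact Or.inr (hQ3 i hi)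
        · rw [tgt_true, e1]
          exact Or.inl (hP3 i hi).2
        · rw [tgt_true, e1]
      exact (h1.trans h2).trans ((hQ7 i hi v hv).mono hQm)

end Pool.Agent.W658.KT

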