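import Pool.Agent.W658.KT.Stm
import Pool.Agent.H974R2.Sym

/-!
# Rotation invariance of the token events (`S_ROT`)
-/

set_option autoImplicit false

namespace Pool.Agent.W658.KT
open H974 H906.Cyl
open Pool.Agent.H160R2.ML (nm)
open Pool.Agent.W801.OU (bxz)

namespace TROT

/-- the rotation `(x, y) ↦ (-y, x)` of the lattice -/
def rot : LSym where
  φ := { toFun := fun e => if e.2.2 then (-e.2.1, e.1, false) else (-e.2.1 - 1, e.1, true)
         invFun := fun e => if e.2.2 then (e.2.1, -e.1 - 1, false) else (e.2.1, -e.1, true)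
         left_inv := by rintro ⟨x, y, _ | _⟩ <;> simp
         right_inv := by rintro ⟨x, y, _ | _⟩ <;> simp }
  ψ := { toFun := fun u => (-u.2, u.1)
         invFun := fun u => (u.2, -u.1)
         left_inv := by intro e; simp
         right_inv := by intro e; simp }
  compat := by
    rintro ⟨x, y, _ | _⟩
    · right
      refine ⟨?_, ?_⟩
      · simp only [Equiv.coe_fn_mk, tgt_false]
        norm_num
        ring
      · simp only [Equiv.coe_fn_mk, src_mk]
        norm_num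
    · left
      refine ⟨?_, ?_⟩
      · simp
      · simp

theorem psi (v : Vtx) : rot.ψ v = rotV v := rfl

theorem nd_rot (v : Vtx) : nd (rotV v) = nd v := by
  simp only [nd, rotV, abs_neg]
  ring

theorem nm_rot (v : Vtx) : nm (rotV v) = nm v := by
  simp only [nm, rotV, abs_neg]
  exact max_comm _ _

theorem An_rot (ρ R : ℤ) (e : Edg) : rot.φ e ∈ An ρ R ↔ e ∈ An ρ R := by
  simp only [An, bxz, Dd, Set.mem_diff, Set.mem_setOf_eq]
  rcases rot.compat e with ⟨h1, h2⟩ | ⟨h1, h2⟩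
  · rw [h1, h2, psi, psi, nm_rot, nm_rot, nd_rot, nd_rot]
  · rw [h1, h2, psi, psi, nm_rot, nm_rot, nd_rot, nd_rot]
    tauto

theorem image_inter (ρ R : ℤ) (F : Set Edg) :
    rot.φ '' (F ∩ An ρ R) = rot.φ '' F ∩ An ρ R := by
  ext e
  constructor
  · rintro ⟨e', ⟨h1, h2⟩, rfl⟩
    exact ⟨⟨e', h1, rfl⟩, (An_rot ρ R e').2 h2⟩
  · rintro ⟨⟨e', h1, rfl⟩, h2⟩
    exact ⟨e', ⟨h1, (An_rot ρ R e').1 h2⟩, rfl⟩

theorem Rn_rot (ρ R : ℤ) (F : Set Edg) (u v : Vtx) :
    Rn ρ R (rot.φ '' F) (rotV u) (rotV v) ↔ Rn ρ R F u v := by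
  unfold Rn
  rw [← image_inter, ← psi, ← psi]
  exact rot.reach_iff

theorem Tok_rot {k n R : ℕ} {a : ℕ → Vtx} {F : Set Edg} (h : Tok k n R a F) :
    Tok k n R (fun i => rotV (a i)) (rot.φ '' F) := by
  obtain ⟨h1, h2, h3, q, hq, h4⟩ := h
  refine ⟨fun i hi => ?_, fun i hi => ?_, fun i j hi hj hij => ?_, rotV q, ?_, ?_⟩
  · rw [nd_rot]; exact h1 i hi
  · obtain ⟨w, hw, h5⟩ := h2 i hi
    refine ⟨rotV w, ?_, ?_⟩
    · rw [nm_rot]; exact hw
    · exact (Rn_rot _ _ _ _ _).2 h5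
  · intro h5
    exact h3 i j hi hj hij ((Rn_rot _ _ _ _ _).1 h5)
  · rw [nm_rot]; exact hq
  · have h5 := rot.reach h4
    refine Reach.mono ?_ h5
    rintro e ⟨e', ⟨h6, h7⟩, rfl⟩
    refine ⟨(An_rot _ _ _).2 h6, fun i hi => ?_⟩
    obtain ⟨h8, h9⟩ := h7 i hi
    rcases rot.compat e' with ⟨h10, h11⟩ | ⟨h10, h11⟩
    · rw [h10, h11, psi, psi]
      exact ⟨fun h => h8 ((Rn_rot _ _ _ _ _).1 h), fun h => h9 ((Rn_rot _ _ _ _ _).1 h)⟩
    · rw [h10, h11, psi, psi]
      exact ⟨fun h => h9 ((Rn_rot _ _ _ _ _).1 h), fun h => h8 ((Rn_rot _ _ _ _ _).1 h)⟩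

theorem box_rot (R : ℕ) : rot.mp (boxE R) = boxE R := by
  ext e
  rw [LSym.mem_mp]
  rcases e with ⟨x, y, _ | _⟩
  · have : rot.φ.symm (x, y, false) = (y, -x, true) := by simp [rot]
    rw [this]
    simp only [boxE, mem_RE_true, mem_RE_false]
    omega
  · have : rot.φ.symm (x, y, true) = (y, -x - 1, false) := by simp [rot]
    rw [this]
    simp only [boxE, mem_RE_true, mem_RE_false]
    omega

end TROT

open TROT in
theorem t_ROT : S_ROT := by
  intro k n R a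
  have h1 : Pr (fun _ => (1 / 2 : ℝ)) (boxE R)
      (fun F => Tok k n R (fun i => rotV (a i)) (↑F : Set Edg)) =
      Pr (fun _ => (1 / 2 : ℝ)) (boxE R)
      (fun F => Tok k n R (fun i => rotV (a i)) (↑(rot.mp F) : Set Edg)) := by
    conv_lhs => rw [← box_rot R]
    exact rot.pr _ _ _
  rw [h1]
  refine Pr_mono (okq (by norm_num) (by norm_num)) ?_
  intro F hF h
  rw [LSym.coe_mp]
  exact Tok_rot h

end Pool.Agent.W658.KT
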