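import Pool.Agent.W658.KT.T_TOK
import Pool.Agent.W658.KT.T_ORD
import Pool.Agent.W658.KT.T_OUT
import Pool.Agent.W658.KT.T_INN
import Pool.Agent.W658.KT.T_PTH
import Pool.Agent.W658.KT.T_FIN
import Pool.Agent.W658.KT.T_ROT
import Pool.Agent.W658.KT.T_ANN

/-!
# Upper bound for `2 k + 1` arms in annuli, from the bound at the origin
-/

set_option autoImplicit false

namespace Pool.Agent.W658.KT

theorem a_PTH : S_PTH := t_PTH t_OUT t_INN
theorem a_MOD : S_MOD := t_MOD a_PTH t_FIN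
theorem a_ALL : S_ALL := t_ALL a_MOD t_ORD t_ROT t_TOK

/-- **upper bound for `2 k + 1` arms in annuli** -/
theorem b_ANN (h : Pool.Agent.W658.KG.S_HON) : S_ANN := t_ANN a_ALL h

end Pool.Agent.W658.KT
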