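import Pool.Agent.W658.KT.Stm

set_option autoImplicit false

/-!
# Tokens: the last exits from the rotated box
-/

namespace Pool.Agent.W658.KT
open H974 H906.Cyl
open Pool.Agent.H160R2.ML (nm)
open Pool.Agent.W801.OU (bxz)
open Pool.Agent.W658.KG (tv TK)

namespace TTOK

theorem nm_le_nd (v : Vtx) : nm v ≤ nd v := by
  unfold nm nd
  have h1 := abs_nonneg v.1
  have h2 := abs_nonneg v.2
  apply max_le <;> linarith

theorem nd_le (v : Vtx) : nd v ≤ 2 * nm v := by
  unfold nm nd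
  have h1 := le_max_left |v.1| |v.2|
  have h2 := le_max_right |v.1| |v.2|
  linarith

theorem edge_cases (e : Edg) : (src e = (e.1, e.2.1)) ∧
    (tgt e = (e.1 + 1, e.2.1) ∨ tgt e = (e.1, e.2.1 + 1)) := by
  obtain ⟨x, y, b⟩ := e
  cases b
  · exact ⟨rfl, Or.inr rfl⟩
  · exact ⟨rfl, Or.inl rfl⟩

theorem abs_step (x : ℤ) : |x + 1| ≤ |x| + 1 ∧ |x| ≤ |x + 1| + 1 := by
  constructor
  · calc |x + 1| ≤ |x| + |1| := abs_add_le _ _
      _ = |x| + 1 := by norm_num
  · calc |x| = |(x + 1) + (-1)| := by ring_nf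
      _ ≤ |x + 1| + |(-1 : ℤ)| := abs_add_le _ _
      _ = |x + 1| + 1 := by norm_num

theorem nd_step (e : Edg) : nd (tgt e) ≤ nd (src e) + 1 ∧ nd (src e) ≤ nd (tgt e) + 1 := by
  obtain ⟨h1, h2⟩ := edge_cases e
  rw [h1]
  rcases h2 with h | h
  · rw [h]
    unfold nd
    have := abs_step e.1
    constructor <;> simp only <;> linarith [this.1, this.2]
  · rw [h]
    unfold nd
    have := abs_step e.2.1
    constructor <;> simp only <;> linarith [this.1, this.2]

theorem adj_nd {G : Set Edg} {u v : Vtx} (h : H974.Adj G u v) : nd v ≤ nd u + 1 := by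
  obtain ⟨e, _, ⟨rfl, rfl⟩ | ⟨rfl, rfl⟩⟩ := h
  · exact (nd_step e).1
  · exact (nd_step e).2

/-- the last vertex in the rotated box -/
theorem last_exit {G : Set Edg} {ρ : ℤ} {u w : Vtx} (h : Reach G u w) (hw : ρ < nd w) :
    (ρ < nd u ∧ Reach (G \ Dd ρ) u w) ∨
      ∃ u₁, nd u₁ = ρ ∧ Reach G u u₁ ∧ Reach (G \ Dd ρ) u₁ w := by
  induction h using Relation.ReflTransGen.head_induction_on with
  | refl => exact Or.inl ⟨hw, Reach.refl _ _⟩
  | head hs ht ih =>
    rename_i a c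
    rcases ih with ⟨h1, h2⟩ | ⟨u₁, h1, h2, h3⟩
    · have hn := adj_nd hs.symm
      have hn' := adj_nd hs
      have hadj : H974.Adj (G \ Dd ρ) a c := by
        obtain ⟨e, he, hh⟩ := hs
        refine ⟨e, ⟨he, ?_⟩, hh⟩
        intro hD
        rcases hh with ⟨_, h4⟩ | ⟨h4, _⟩
        · have := hD.2
          rw [h4] at this
          exact absurd h1 (not_lt.2 this)
        · have := hD.1
          rw [h4] at this
          exact absurd h1 (not_lt.2 this)
      by_cases hu : ρ < nd a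
      · exact Or.inl ⟨hu, Relation.ReflTransGen.head hadj h2⟩
      · refine Or.inr ⟨a, by omega, Reach.refl _ _, Relation.ReflTransGen.head hadj h2⟩
    · exact Or.inr ⟨u₁, h1, Relation.ReflTransGen.head hs h2, h3⟩

theorem reach_mono {G G' : Set Edg} (h : G ⊆ G') {u v : Vtx} (hr : Reach G u v) : Reach G' u v := by
  induction hr with
  | refl => exact Reach.refl _ _
  | tail _ hs ih => exact Relation.ReflTransGen.tail ih (H974.Adj.mono h hs)

end TTOK

open TTOK in
/-- from the annulus to tokens -/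
theorem t_TOK : S_TOK := by
  intro k d n R F _ hdn hnR hA
  obtain ⟨v, x, y, h1, h2, hx, hy, h3, h4⟩ := hA
  have hdn' : (2 * d : ℤ) ≤ n := by exact_mod_cast hdn
  have hnR' : (n : ℤ) < R := by exact_mod_cast hnR
  have hnd : ∀ u : Vtx, nm u = d → ¬ (n : ℤ) < nd u := by
    intro u hu
    have := nd_le u
    rw [hu] at this
    omega
  have hnR'' : ∀ u : Vtx, nm u = R → (n : ℤ) < nd u := by
    intro u hu
    have := nm_le_nd u
    rw [hu] at this
    omega
  have hbD : bxz (d : ℤ) ⊆ Dd (n : ℤ) := by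
    rintro e ⟨e1, e2⟩
    have f1 := nd_le (src e)
    have f2 := nd_le (tgt e)
    exact ⟨by omega, by omega⟩
  have hsub : ∀ G : Set Edg, (G ∩ (bxz (R : ℤ) \ bxz (d : ℤ))) \ Dd (n : ℤ) ⊆ G ∩ An n R := by
    rintro G e ⟨⟨e1, e2⟩, e3⟩
    exact ⟨e1, e2.1, e3⟩
  have hmono : ∀ a b : Vtx, Rn n R F a b → Reach (F ∩ (bxz (R : ℤ) \ bxz (d : ℤ))) a b := by
    intro a b h
    refine reach_mono ?_ h
    rintro e ⟨e1, e2, e3⟩
    exact ⟨e1, e2, fun h => e3 (hbD h)⟩
  have hcl : ∀ i : ℕ, ∃ u : Vtx, i < k → nd u = n ∧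
      Reach (F ∩ (bxz (R : ℤ) \ bxz (d : ℤ))) (v i) u ∧ ∃ w, nm w = R ∧ Rn n R F u w := by
    intro i
    by_cases hi : i < k
    · obtain ⟨a1, w, a2, a3⟩ := h1 i hi
      obtain ⟨u, b1, b2, b3⟩ := (last_exit a3 (hnR'' w a2)).resolve_left
        (fun h => hnd _ a1 h.1)
      exact ⟨u, fun _ => ⟨b1, b2, w, a2, reach_mono (hsub F) b3⟩⟩
    · exact ⟨(0, 0), fun h => absurd h hi⟩
  choose u hu using hcl
  obtain ⟨p, p1, -, p3⟩ := (last_exit h4 (hnR'' y hy)).resolve_left (fun h => hnd _ hx h.1)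
  have hp : ∀ i < k, ¬ Reach (F ∩ (bxz (R : ℤ) \ bxz (d : ℤ))) (v i) p := by
    intro i hi hcon
    rcases Relation.ReflTransGen.cases_head p3 with q2 | ⟨c, ⟨e, he, hh⟩, _⟩
    · rw [q2] at p1
      have := hnR'' y hy
      omega
    · rcases hh with ⟨q3, _⟩ | ⟨_, q3⟩
      · exact (he.1.2 i hi).1 (by rw [q3]; exact hcon)
      · exact (he.1.2 i hi).2 (by rw [q3]; exact hcon)
  refine ⟨fun i => if i < k then u i else p, ?_, ?_, ?_, y, hy, ?_⟩
  · intro i _
    by_cases hi : i < k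
    · simp only [hi, if_true]; exact (hu i hi).1
    · simp only [hi, if_false]; exact p1
  · intro i hi
    simp only [hi, if_true]
    exact (hu i hi).2.2
  · intro i j hi hj hij
    simp only [hi, if_true]
    by_cases hj' : j < k
    · simp only [hj', if_true]
      intro h
      exact h2 i j hi hj' hij (((hu i hi).2.1.trans (hmono _ _ h)).trans (hu j hj').2.1.symm)
    · simp only [hj', if_false]
      intro h
      exact hp i hi ((hu i hi).2.1.trans (hmono _ _ h))
  · simp only [lt_irrefl, if_false]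
    refine reach_mono ?_ p3
    rintro e ⟨⟨e1, e2⟩, e3⟩
    refine ⟨⟨e1.1, e3⟩, fun i hi => ?_⟩
    simp only [hi, if_true]
    exact ⟨fun h => (e2 i hi).1 ((hu i hi).2.1.trans (hmono _ _ h)),
      fun h => (e2 i hi).2 ((hu i hi).2.1.trans (hmono _ _ h))⟩

end Pool.Agent.W658.KT
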