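import Pool.Agent.W658.KG.Stm

/-!
# From annuli to the `2 k + 1` arm event at the origin (routing): definitions and steps
(every step is a `Prop`; the file `T_X.lean` proves `t_X` from its hypotheses)

`k` crossing clusters and a lattice path of the annulus leave the rotated box `|x| + |y| ≤ n` at `k + 1`
vertices (tokens); number `k` is the lattice path.  They are connected inside the rotated box with the
tips `tv k i` and the vertex `(0, 1)` by disjoint connected sets.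
-/

set_option autoImplicit false

namespace Pool.Agent.W658.KT
open H974 H906.Cyl
open Pool.Agent.H160R2.ML (nm)
open Pool.Agent.W801.OU (bxz)
open Pool.Agent.W658.KG (tv TK)

/-! ## events -/

/-- the norm of the rotated boxes (as `OS.nd`) -/
def nd (v : Vtx) : ℤ := |v.1| + |v.2|

/-- edges of the rotated box (as `OS.Dd`) -/
def Dd (ρ : ℤ) : Set Edg := {e | nd (src e) ≤ ρ ∧ nd (tgt e) ≤ ρ}

/-- the annulus between the rotated box of radius `ρ` and the box of radius `R` (as `OS.An`) -/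
def An (ρ R : ℤ) : Set Edg := bxz R \ Dd ρ

/-- open connection in the annulus (as `OS.Rn`) -/
def Rn (ρ R : ℤ) (F : Set Edg) : Vtx → Vtx → Prop := Reach (F ∩ An ρ R)

/-- `k` different crossing clusters of the annulus `d .. R`, and a lattice path which avoids them and
crosses the annulus -/
def AK (k d R : ℕ) (F : Set Edg) : Prop := ∃ (v : ℕ → Vtx) (x y : Vtx),
  (∀ i < k, nm (v i) = d ∧ ∃ w, nm w = R ∧ Reach (F ∩ (bxz R \ bxz d)) (v i) w) ∧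
  (∀ i j, i < k → j < k → i ≠ j → ¬ Reach (F ∩ (bxz R \ bxz d)) (v i) (v j)) ∧
  nm x = d ∧ nm y = R ∧ (∀ i < k, ¬ Reach (F ∩ (bxz R \ bxz d)) (v i) x) ∧
  Reach {e | e ∈ bxz (R : ℤ) \ bxz (d : ℤ) ∧ ∀ i < k, ¬ Reach (F ∩ (bxz R \ bxz d)) (v i) (src e) ∧
    ¬ Reach (F ∩ (bxz R \ bxz d)) (v i) (tgt e)} x y

/-- the same for the annulus between the rotated box of radius `n` and the box of radius `R`, with
given starting vertices -/
def Tok (k n R : ℕ) (a : ℕ → Vtx) (F : Set Edg) : Prop :=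
  (∀ i ≤ k, nd (a i) = n) ∧
  (∀ i < k, ∃ w, nm w = R ∧ Rn n R F (a i) w) ∧
  (∀ i j, i < k → j ≤ k → i ≠ j → ¬ Rn n R F (a i) (a j)) ∧
  ∃ q, nm q = R ∧ Reach {e | e ∈ An n R ∧ ∀ i < k, ¬ Rn n R F (a i) (src e) ∧
    ¬ Rn n R F (a i) (tgt e)} (a k) q

/-! ## order of the tokens -/

/-- rotation -/
def rotV (v : Vtx) : Vtx := (-v.2, v.1)

/-- rank of the vertices of the boundary of the rotated box of radius `n` in counterclockwise order,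
starting from the vertex of height `y0` on the right; `X` = half width of the rectangle
`|x| ≤ X`, `|y| ≤ n - X` -/
def rk (n X y0 : ℤ) (v : Vtx) : ℤ :=
  if X < v.1 ∧ y0 ≤ v.2 then 4 * n + v.2
  else if |v.1| ≤ X ∧ 0 < v.2 then 8 * n - v.1
  else if v.1 < -X then 12 * n - v.2
  else if |v.1| ≤ X then 16 * n + v.1
  else 20 * n + v.2

/-- normalised tokens: number `0` is on the right, they are in counterclockwise order, and none of them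
is near the corners of the rectangle -/
structure Nrm (k n : ℕ) (X : ℤ) (a : ℕ → Vtx) : Prop where
  x1 : 20 * ((k : ℤ) + 2) ≤ X
  x2 : X + 20 * ((k : ℤ) + 2) ≤ n
  nn : ∀ i ≤ k, nd (a i) = n
  win : ∀ i ≤ k, X + (2 * k + 4) ≤ |(a i).1| ∨ |(a i).1| + (2 * k + 4) ≤ X
  rt : X < (a 0).1
  ord : ∀ i j, i < j → j ≤ k → rk n X (a 0).2 (a i) < rk n X (a 0).2 (a j)

/-! ## steps -/

/-- from the annulus to tokens (last exits from the rotated box) -/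
def S_TOK : Prop := ∀ (k d n R : ℕ) (F : Set Edg), 1 ≤ k → 2 * d ≤ n → n < R → AK k d R F →
  ∃ a : ℕ → Vtx, Tok k n R a F

/-- normalisation of the tokens: a permutation of the clusters and a rotation -/
def S_ORD : Prop := ∀ (k n : ℕ) (a : ℕ → Vtx), 1 ≤ k → 100 * (k + 2) ^ 2 ≤ n →
  (∀ i ≤ k, nd (a i) = n) → (∀ i j, i ≤ k → j ≤ k → a i = a j → i = j) →
  ∃ (b : ℕ → ℕ) (q : ℕ) (X : ℤ), b k = k ∧ (∀ i < k, b i < k) ∧
    (∀ i j, i < k → j < k → b i = b j → i = j) ∧ Nrm k n X (fun i => rotV^[q] (a (b i)))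

/-- paths from the tokens to parallel rows entering the rectangle from the right -/
def S_OUT : Prop := ∀ (k n : ℕ) (X : ℤ) (a : ℕ → Vtx), 1 ≤ k → Nrm k n X a →
  ∃ P : ℕ → Set Vtx,
    (∀ i ≤ k, ∀ v ∈ P i, nd v ≤ n ∧ (nd v = n → v = a i) ∧
      ¬ (|v.1| ≤ X - k - 2 ∧ |v.2| ≤ n - X - k - 2)) ∧
    (∀ i j, i < j → j ≤ k → ∀ v ∈ P i, v ∉ P j) ∧
    (∀ i ≤ k, a i ∈ P i ∧ (X - k - 1, (a 0).2 + i) ∈ P i) ∧
    (∀ i ≤ k, ∀ v ∈ P i, Reach {e | src e ∈ P i ∧ tgt e ∈ P i} (a i) v)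

/-- paths from parallel rows to the tips -/
def S_INN : Prop := ∀ (k : ℕ) (X Y y0 : ℤ), 2 ≤ k → 6 * k + 6 ≤ X → |y0| + k ≤ Y → k ≤ Y →
  ∃ P : ℕ → Set Vtx,
    (∀ i ≤ k, ∀ v ∈ P i, |v.1| ≤ X ∧ |v.2| ≤ Y) ∧
    (∀ i j, i < j → j ≤ k → ∀ v ∈ P i, v ∉ P j) ∧
    (∀ i ≤ k, (X, y0 + i) ∈ P i) ∧ (∀ i < k, tv k i ∈ P i) ∧ (0, 1) ∈ P k ∧ (-1, 0) ∉ P 0 ∧
    (∀ i ≤ k, ∀ v ∈ P i, Reach {e | src e ∈ P i ∧ tgt e ∈ P i} (X, y0 + i) v)

/-- the system of paths of the tokens `a` -/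
structure Pth (k n : ℕ) (a : ℕ → Vtx) (P : ℕ → Set Vtx) : Prop where
  bd : ∀ i ≤ k, ∀ v ∈ P i, nd v ≤ n ∧ (nd v = n → v = a i)
  dj : ∀ i j, i ≤ k → j ≤ k → i ≠ j → ∀ v ∈ P i, v ∉ P j
  am : ∀ i ≤ k, a i ∈ P i
  tip : ∀ i < k, tv k i ∈ P i
  o : (0, 1) ∈ P k
  no : (-1, 0) ∉ P 0
  con : ∀ i ≤ k, ∀ v ∈ P i, Reach {e | src e ∈ P i ∧ tgt e ∈ P i} (a i) v

/-- the two parts together (from `S_OUT`, `S_INN`) -/
def S_PTH : Prop := ∀ (k n : ℕ) (X : ℤ) (a : ℕ → Vtx), 2 ≤ k → Nrm k n X a →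
  ∃ P : ℕ → Set Vtx, Pth k n a P

/-- the modified configuration has `2 k + 1` arms at the origin -/
def S_FIN : Prop := ∀ (k n R : ℕ) (a : ℕ → Vtx) (P : ℕ → Set Vtx) (F : Set Edg), 2 ≤ k → n < R →
  Pth k n a P → Tok k n R a F →
  TK k R ({e | ∃ i < k, src e ∈ P i ∧ tgt e ∈ P i} ∪ (F \ Dd n))

/-- rotation invariance -/
def S_ROT : Prop := ∀ (k n R : ℕ) (a : ℕ → Vtx),
  Pr (fun _ => (1 / 2 : ℝ)) (boxE R) (fun F => Tok k n R a (↑F : Set Edg)) ≤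
    Pr (fun _ => (1 / 2 : ℝ)) (boxE R) (fun F => Tok k n R (fun i => rotV (a i)) (↑F : Set Edg))

/-- one family of tokens (from `S_PTH`, `S_FIN`) -/
def S_MOD : Prop := ∀ k n : ℕ, 2 ≤ k → ∃ C : ℝ, 0 < C ∧ ∀ (R : ℕ) (X : ℤ) (a : ℕ → Vtx), n < R →
  Nrm k n X a → Pr (fun _ => (1 / 2 : ℝ)) (boxE R) (fun F => Tok k n R a (↑F : Set Edg)) ≤
    C * Pr (fun _ => (1 / 2 : ℝ)) (boxE R) (fun F => TK k R (↑F : Set Edg))

/-- all the tokens (from `S_MOD`, `S_ORD`, `S_ROT`, `S_TOK`) -/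
def S_ALL : Prop := ∀ k d : ℕ, 2 ≤ k → 1 ≤ d → ∃ C : ℝ, 0 < C ∧ ∃ R0 : ℕ, ∀ R : ℕ, R0 ≤ R →
  Pr (fun _ => (1 / 2 : ℝ)) (boxE R) (fun F => AK k d R (↑F : Set Edg)) ≤
    C * Pr (fun _ => (1 / 2 : ℝ)) (boxE R) (fun F => TK k R (↑F : Set Edg))

/-- **upper bound for `2 k + 1` arms in annuli** (from `S_ALL` and `KG.S_HON`) -/
def S_ANN : Prop := ∀ k d : ℕ, 2 ≤ k → 1 ≤ d → ∃ C : ℝ, 0 < C ∧ ∀ R : ℕ, 1 ≤ R →
  Pr (fun _ => (1 / 2 : ℝ)) (boxE R) (fun F => AK k d R (↑F : Set Edg)) ≤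
    C * (R : ℝ) ^ (-((k : ℝ) * (k + 1) / 3))

end Pool.Agent.W658.KT
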