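import Pool.Agent.W658.KT.Stm
import Pool.Agent.H974R2.Split

/-! # All the tokens: union bound, rotation and permutation -/

set_option autoImplicit false

namespace Pool.Agent.W658.KT
open H974 H906.Cyl
open Pool.Agent.H160R2.ML (nm)
open Pool.Agent.W801.OU (bxz)
open Pool.Agent.W658.KG (tv TK)

namespace TALL

theorem ok : Ok (fun _ : Edg => (1 / 2 : ℝ)) := okq (by norm_num) (by norm_num)

/-- the token event only depends on the tokens `0, ..., k` -/
theorem tok_congr {k n R : ℕ} {a a' : ℕ → Vtx} {F : Set Edg} (h : ∀ i ≤ k, a i = a' i)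
    (hT : Tok k n R a F) : Tok k n R a' F := by
  obtain ⟨h1, h2, h3, q, h4, h5⟩ := hT
  refine ⟨fun i hi => by rw [← h i hi]; exact h1 i hi,
    fun i hi => by rw [← h i hi.le]; exact h2 i hi,
    fun i j hi hj hij => by rw [← h i hi.le, ← h j hj]; exact h3 i j hi hj hij, q, h4, ?_⟩
  rw [← h k le_rfl]
  refine h5.mono ?_
  rintro e ⟨he, h6⟩
  exact ⟨he, fun i hi => by rw [← h i hi.le]; exact h6 i hi⟩

/-- permutation of the clusters -/
theorem tok_perm {k n R : ℕ} {a : ℕ → Vtx} {F : Set Edg} {b : ℕ → ℕ} (hk : b k = k)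
    (hb : ∀ i < k, b i < k) (hi : ∀ i j, i < k → j < k → b i = b j → i = j)
    (hT : Tok k n R a F) : Tok k n R (fun i => a (b i)) F := by
  have hb' : ∀ i ≤ k, b i ≤ k := by
    intro i h
    rcases Nat.lt_or_ge i k with h' | h'
    · exact (hb i h').le
    · rw [le_antisymm h h', hk]
  have hi' : ∀ i j, i < k → j ≤ k → i ≠ j → b i ≠ b j := by
    intro i j h h' hij he
    rcases Nat.lt_or_ge j k with h2 | h2
    · exact hij (hi i j h h2 he)
    · rw [le_antisymm h' h2, hk] at he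
      have := hb i h
      omega
  obtain ⟨h1, h2, h3, q, h4, h5⟩ := hT
  refine ⟨fun i hi => h1 _ (hb' i hi), fun i hi => h2 _ (hb i hi),
    fun i j hi hj hij => h3 _ _ (hb i hi) (hb' j hj) (hi' i j hi hj hij), q, h4, ?_⟩
  show Reach _ (a (b k)) q
  rw [hk]
  refine h5.mono ?_
  rintro e ⟨he, h6⟩
  exact ⟨he, fun i hi => h6 _ (hb i hi)⟩

/-- the tokens are different -/
theorem tok_inj {k n R : ℕ} {a : ℕ → Vtx} {F : Set Edg} (hT : Tok k n R a F) :
    ∀ i j, i ≤ k → j ≤ k → a i = a j → i = j := by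
  obtain ⟨h1, h2, h3, h4⟩ := hT
  intro i j hi hj he
  by_contra hij
  rcases Nat.lt_or_ge i k with h | h
  · refine h3 i j h hj hij ?_
    rw [he]
    exact Reach.refl _ _
  · have hi' : i = k := le_antisymm hi h
    have hj' : j < k := lt_of_le_of_ne hj (fun h' => hij (by rw [hi', h']))
    refine h3 j i hj' hi (fun h' => hij h'.symm) ?_
    rw [he]
    exact Reach.refl _ _

theorem rot_iter (hR : S_ROT) (k n R : ℕ) (q : ℕ) : ∀ a : ℕ → Vtx,
    Pr (fun _ => (1 / 2 : ℝ)) (boxE R) (fun F => Tok k n R a (↑F : Set Edg)) ≤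
    Pr (fun _ => (1 / 2 : ℝ)) (boxE R)
      (fun F => Tok k n R (fun i => rotV^[q] (a i)) (↑F : Set Edg)) := by
  induction q with
  | zero => intro a; exact le_rfl
  | succ q ih =>
    intro a
    refine le_trans (ih a) ?_
    have := hR k n R (fun i => rotV^[q] (a i))
    simp only [Function.iterate_succ_apply']
    exact this

/-- the tokens as functions on `Fin (k + 1)` -/
def ext (k : ℕ) (f : Fin (k + 1) → Vtx) (i : ℕ) : Vtx := if h : i < k + 1 then f ⟨i, h⟩ else (0, 0)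

theorem ext_eq (k : ℕ) (a : ℕ → Vtx) : ∀ i ≤ k, a i = ext k (fun j => a j) i := by
  intro i hi
  unfold ext
  rw [dif_pos (by omega)]

end TALL

open TALL in
/-- **all the tokens** -/
theorem t_ALL : S_MOD → S_ORD → S_ROT → S_TOK → S_ALL := by
  classical
  intro hM hO hR hT k d hk hd
  set n : ℕ := max (2 * d) (100 * (k + 2) ^ 2) with hn
  obtain ⟨C, hC, hC'⟩ := hM k n hk
  -- one family
  have key : ∀ (R : ℕ) (a : ℕ → Vtx), n < R →
      Pr (fun _ => (1 / 2 : ℝ)) (boxE R) (fun F => Tok k n R a (↑F : Set Edg)) ≤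
        C * Pr (fun _ => (1 / 2 : ℝ)) (boxE R) (fun F => TK k R (↑F : Set Edg)) := by
    intro R a hnR
    have hpos : 0 ≤ C * Pr (fun _ => (1 / 2 : ℝ)) (boxE R) (fun F => TK k R (↑F : Set Edg)) :=
      mul_nonneg hC.le (Pr_nonneg ok _ _)
    by_cases hg : (∀ i ≤ k, nd (a i) = n) ∧ (∀ i j, i ≤ k → j ≤ k → a i = a j → i = j)
    · obtain ⟨b, q, X, hb1, hb2, hb3, hN⟩ := hO k n a (by omega) (le_max_right _ _) hg.1 hg.2
      refine le_trans ?_ (hC' R X _ hnR hN)
      refine le_trans ?_ (rot_iter hR k n R q (fun i => a (b i)))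
      exact Pr_mono ok (fun F _ h => tok_perm hb1 hb2 hb3 h)
    · refine le_trans (le_of_eq ?_) hpos
      have : Pr (fun _ => (1 / 2 : ℝ)) (boxE R) (fun F => Tok k n R a (↑F : Set Edg)) ≤
          Pr (fun _ => (1 / 2 : ℝ)) (boxE R) (fun _ => False) := by
        refine Pr_mono ok (fun F _ h => hg ⟨h.1, tok_inj h⟩)
      refine le_antisymm (le_trans this (le_of_eq ?_)) (Pr_nonneg ok _ _)
      unfold Pr
      rw [Ex_congr (g := fun _ => 0) (fun F _ => ind_not_of (by simp)), Ex_const]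
  -- the finite set of tokens
  set J : Finset (Fin (k + 1) → Vtx) := Fintype.piFinset
    (fun _ => (Finset.Icc (-(n : ℤ)) n) ×ˢ (Finset.Icc (-(n : ℤ)) n)) with hJ
  refine ⟨(J.card + 1) * C, by positivity, n + 1, fun R hnR => ?_⟩
  have hst : Pr (fun _ => (1 / 2 : ℝ)) (boxE R) (fun F => AK k d R (↑F : Set Edg)) ≤
      Pr (fun _ => (1 / 2 : ℝ)) (boxE R) (fun F => ∃ f ∈ J, Tok k n R (ext k f) (↑F : Set Edg)) := by
    refine Pr_mono ok (fun F _ h => ?_)
    obtain ⟨a, ha⟩ := hT k d n R (↑F : Set Edg) (by omega) (le_max_left _ _) (by omega) h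
    refine ⟨fun j => a j, ?_, tok_congr (ext_eq k a) ha⟩
    rw [hJ, Fintype.mem_piFinset]
    intro j
    have h1 := ha.1 j (by omega)
    unfold nd at h1
    rw [Finset.mem_product, Finset.mem_Icc, Finset.mem_Icc]
    have e1 := abs_le.mp (show |(a j).1| ≤ (n : ℤ) by have := abs_nonneg (a j).2; omega)
    have e2 := abs_le.mp (show |(a j).2| ≤ (n : ℤ) by have := abs_nonneg (a j).1; omega)
    exact ⟨e1, e2⟩
  refine le_trans hst (le_trans (Pr_exists_le ok _ J (fun f F => Tok k n R (ext k f) (↑F : Set Edg))) ?_)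
  refine le_trans (Finset.sum_le_card_nsmul J _ _ (fun f _ => key R (ext k f) (by omega))) ?_
  rw [nsmul_eq_mul]
  have hP := Pr_nonneg ok (boxE R) (fun F => TK k R (↑F : Set Edg))
  nlinarith [mul_nonneg hC.le hP]

end Pool.Agent.W658.KT
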