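import Pool.Agent.W658.KT.Stm

/-!
# Normalisation of the tokens (second copy)
-/

set_option autoImplicit false

namespace Pool.Agent.W658.KT
namespace ORDb
open H974 H906.Cyl

/-- position of a vertex of the boundary of the rotated box -/
def th (n : ℤ) (v : Vtx) : ℤ :=
  if 0 < v.1 ∧ 0 ≤ v.2 then v.2
  else if 0 < v.2 then n - v.1
  else if v.1 < 0 then 2 * n - v.2
  else 3 * n + v.1

/-- counterclockwise distance -/
def DD (n : ℤ) (v w : Vtx) : ℤ :=
  if th n v ≤ th n w then th n w - th n v else th n w - th n v + 4 * n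

theorem nd_nat (v : Vtx) : nd v = (v.1.natAbs : ℤ) + (v.2.natAbs : ℤ) := by
  unfold nd
  rw [Int.abs_eq_natAbs, Int.abs_eq_natAbs]

theorem th_range (n : ℤ) (hn : 0 < n) (v : Vtx) (hv : nd v = n) : 0 ≤ th n v ∧ th n v < 4 * n := by
  rw [nd_nat] at hv
  unfold th
  split_ifs <;> omega

theorem th_inj (n : ℤ) (hn : 0 < n) (v w : Vtx) (hv : nd v = n) (hw : nd w = n)
    (h : th n v = th n w) : v = w := by
  rw [nd_nat] at hv hw
  unfold th at h
  have : v.1 = w.1 ∧ v.2 = w.2 := by
    split_ifs at h <;> omega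
  exact Prod.ext this.1 this.2

theorem nd_rot (v : Vtx) : nd (rotV v) = nd v := by
  rw [nd_nat, nd_nat]
  simp only [rotV]
  omega

theorem th_rot (n : ℤ) (hn : 0 < n) (v : Vtx) (hv : nd v = n) :
    th n (rotV v) = th n v + n ∨ th n (rotV v) = th n v + n - 4 * n := by
  rw [nd_nat] at hv
  unfold th rotV
  simp only
  split_ifs <;> omega

theorem DD_rot (n : ℤ) (hn : 0 < n) (v w : Vtx) (hv : nd v = n) (hw : nd w = n) :
    DD n (rotV v) (rotV w) = DD n v w := by
  have h1 := th_rot n hn v hv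
  have h2 := th_rot n hn w hw
  have h3 := th_range n hn v hv
  have h4 := th_range n hn w hw
  have h5 := th_range n hn (rotV v) (by rw [nd_rot, hv])
  have h6 := th_range n hn (rotV w) (by rw [nd_rot, hw])
  unfold DD
  split_ifs <;> omega

theorem nd_rot_it (v : Vtx) (q : ℕ) : nd (rotV^[q] v) = nd v := by
  induction q with
  | zero => rfl
  | succ q ih => rw [Function.iterate_succ_apply', nd_rot, ih]

theorem DD_rot_it (n : ℤ) (hn : 0 < n) (v w : Vtx) (hv : nd v = n) (hw : nd w = n) (q : ℕ) :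
    DD n (rotV^[q] v) (rotV^[q] w) = DD n v w := by
  induction q with
  | zero => rfl
  | succ q ih =>
    rw [Function.iterate_succ_apply', Function.iterate_succ_apply', DD_rot n hn _ _
      (by rw [nd_rot_it, hv]) (by rw [nd_rot_it, hw]), ih]

theorem rotV_inj : Function.Injective rotV := by
  intro v w h
  simp only [rotV, Prod.mk.injEq] at h
  exact Prod.ext h.2 (by omega)

/-- the rank and the position -/
theorem rel (n X : ℤ) (h0 : 0 ≤ X) (h1 : X < n) (p v : Vtx) (hp : nd p = n) (hv : nd v = n)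
    (hX : X < p.1) :
    (rk n X p.2 v = DD n p v + p.2 + 4 * n ∧ DD n p v + p.2 < n - X) ∨
    (rk n X p.2 v = DD n p v + p.2 + 7 * n ∧ n - X ≤ DD n p v + p.2 ∧ DD n p v + p.2 ≤ n + X) ∨
    (rk n X p.2 v = DD n p v + p.2 + 10 * n ∧ n + X < DD n p v + p.2 ∧
      DD n p v + p.2 < 3 * n - X) ∨
    (rk n X p.2 v = DD n p v + p.2 + 13 * n ∧ 3 * n - X ≤ DD n p v + p.2 ∧
      DD n p v + p.2 ≤ 3 * n + X) ∨
    (rk n X p.2 v = DD n p v + p.2 + 16 * n ∧ 3 * n + X < DD n p v + p.2) := by
  rw [nd_nat] at hp hv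
  obtain ⟨px, py⟩ := p
  obtain ⟨vx, vy⟩ := v
  simp only at hp hv hX ⊢
  have e1 : |vx| = (vx.natAbs : ℤ) := Int.abs_eq_natAbs vx
  obtain ⟨s, hs, tp⟩ : ∃ s : ℤ, ((s = 4 * n ∧ py < 0) ∨ (s = 0 ∧ 0 ≤ py)) ∧
      th n (px, py) = s + py := by
    by_cases c : py < 0
    · refine ⟨4 * n, Or.inl ⟨rfl, c⟩, ?_⟩
      unfold th
      simp only
      split_ifs <;> omega
    · refine ⟨0, Or.inr ⟨rfl, by omega⟩, ?_⟩
      unfold th
      simp only
      split_ifs <;> omega
  have tv : (th n (vx, vy) = vy ∧ 0 < vx ∧ 0 ≤ vy) ∨ (th n (vx, vy) = n - vx ∧ vx ≤ 0 ∧ 0 < vy) ∨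
      (th n (vx, vy) = 2 * n - vy ∧ vx < 0 ∧ vy ≤ 0) ∨
      (th n (vx, vy) = 3 * n + vx ∧ 0 ≤ vx ∧ vy < 0) := by
    unfold th
    simp only
    split_ifs with q1 q2 q3
    · exact Or.inl ⟨rfl, q1⟩
    · exact Or.inr (Or.inl ⟨rfl, by omega, q2⟩)
    · exact Or.inr (Or.inr (Or.inl ⟨rfl, q3, by omega⟩))
    · exact Or.inr (Or.inr (Or.inr ⟨rfl, by omega, by omega⟩))
  have dv : (th n (px, py) ≤ th n (vx, vy) ∧
      DD n (px, py) (vx, vy) = th n (vx, vy) - th n (px, py)) ∨ (th n (vx, vy) < th n (px, py) ∧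
      DD n (px, py) (vx, vy) = th n (vx, vy) - th n (px, py) + 4 * n) := by
    unfold DD
    split_ifs with q1
    · exact Or.inl ⟨q1, rfl⟩
    · exact Or.inr ⟨by omega, rfl⟩
  rw [tp] at dv
  generalize th n (vx, vy) = T at tv dv
  generalize DD n (px, py) (vx, vy) = D at dv ⊢
  unfold rk
  simp only
  rw [e1]
  split_ifs with r1 r2 r3 r4
  · left
    rcases tv with tv | tv | tv | tv <;> rcases dv with dv | dv <;> rcases hs with hs | hs <;> omega
  · right; left
    rcases tv with tv | tv | tv | tv <;> rcases dv with dv | dv <;> rcases hs with hs | hs <;> omega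
  · right; right; left
    rcases tv with tv | tv | tv | tv <;> rcases dv with dv | dv <;> rcases hs with hs | hs <;> omega
  · right; right; right; left
    rcases tv with tv | tv | tv | tv <;> rcases dv with dv | dv <;> rcases hs with hs | hs <;> omega
  · right; right; right; right
    rcases tv with tv | tv | tv | tv <;> rcases dv with dv | dv <;> rcases hs with hs | hs <;> omega

theorem mono (n X : ℤ) (h0 : 0 ≤ X) (h1 : X < n) (p v w : Vtx) (hp : nd p = n) (hv : nd v = n)
    (hw : nd w = n) (hX : X < p.1) (h : DD n p v < DD n p w) : rk n X p.2 v < rk n X p.2 w := by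
  have r1 := rel n X h0 h1 p v hp hv hX
  have r2 := rel n X h0 h1 p w hp hw hX
  omega

theorem last (n : ℤ) (hn : 0 < n) (p w a : Vtx) (hp : nd p = n) (hw : nd w = n) (ha : nd a = n)
    (hne : a ≠ p) (hwa : w ≠ a) (h : DD n a p ≤ DD n a w) : DD n p w < DD n p a := by
  have h1 : th n a ≠ th n p := fun e => hne (th_inj n hn a p ha hp e)
  have h6 : th n w ≠ th n a := fun e => hwa (th_inj n hn w a hw ha e)
  have h2 := th_range n hn p hp
  have h3 := th_range n hn w hw
  have h4 := th_range n hn a ha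
  unfold DD at *
  split_ifs at * <;> omega

theorem first (n : ℤ) (hn : 0 < n) (p v : Vtx) (hp : nd p = n) (hv : nd v = n)
    (hne : p ≠ v) : DD n p p < DD n p v := by
  have h1 : th n p ≠ th n v := fun e => hne (th_inj n hn p v hp hv e)
  have h2 := th_range n hn p hp
  have h3 := th_range n hn v hv
  unfold DD
  split_ifs <;> omega

theorem DD_inj (n : ℤ) (hn : 0 < n) (p v w : Vtx) (hp : nd p = n) (hv : nd v = n) (hw : nd w = n)
    (h : DD n p v = DD n p w) : v = w := by
  have h2 := th_range n hn p hp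
  have h3 := th_range n hn v hv
  have h4 := th_range n hn w hw
  refine th_inj n hn v w hv hw ?_
  unfold DD at h
  split_ifs at h <;> omega

/-- sorting -/
theorem sorting (k : ℕ) (f : ℕ → ℤ) (hinj : ∀ i j, i ≤ k → j ≤ k → f i = f j → i = j)
    (hk : ∀ i < k, f i < f k) (p : ℕ) (hp : p ≤ k) (hpm : ∀ i ≤ k, f p ≤ f i) :
    ∃ b : ℕ → ℕ, b k = k ∧ b 0 = p ∧ (∀ i < k, b i < k) ∧
      (∀ i j, i < j → j ≤ k → f (b i) < f (b j)) := by
  classical
  let g : Fin (k + 1) → ℤ := fun i => f i
  have ginj : Function.Injective g := by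
    intro i j h
    exact Fin.ext (hinj i j (by omega) (by omega) h)
  let σ := Tuple.sort g
  have hm : StrictMono (g ∘ σ) := (Tuple.monotone_sort g).strictMono_of_injective
    (ginj.comp σ.injective)
  let b : ℕ → ℕ := fun i => if h : i < k + 1 then (σ ⟨i, h⟩ : ℕ) else i
  have bv : ∀ i (h : i < k + 1), b i = σ ⟨i, h⟩ := by
    intro i h
    simp only [b, h, dif_pos]
  have fb : ∀ i (h : i < k + 1), f (b i) = (g ∘ σ) ⟨i, h⟩ := by
    intro i h
    rw [bv i h]
    rfl
  have bl : ∀ i, i < k + 1 → b i ≤ k := by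
    intro i h
    rw [bv i h]
    omega
  have mon : ∀ i j, i < j → j ≤ k → f (b i) < f (b j) := by
    intro i j hij hj
    rw [fb i (by omega), fb j (by omega)]
    exact hm (by simpa using hij)
  have bk : b k = k := by
    obtain ⟨i, hi⟩ := σ.surjective ⟨k, by omega⟩
    have e : b i = k := by
      rw [bv i i.2]
      have : (⟨(i : ℕ), i.2⟩ : Fin (k + 1)) = i := rfl
      rw [this, hi]
    by_contra hne
    have hik : (i : ℕ) < k := by
      have := i.2
      rcases Nat.lt_or_ge i k with h | h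
      · exact h
      · exfalso
        apply hne
        have : (i : ℕ) = k := by omega
        rw [← this]
        rw [this] at e ⊢
        exact e
    have h1 := mon i k hik le_rfl
    rw [e] at h1
    have h2 := bl k (by omega)
    have h3 : b k < k := by omega
    have h4 := hk (b k) h3
    omega
  have b0 : b 0 = p := by
    obtain ⟨i, hi⟩ := σ.surjective ⟨p, by omega⟩
    have e : b i = p := by
      rw [bv i i.2]
      have : (⟨(i : ℕ), i.2⟩ : Fin (k + 1)) = i := rfl
      rw [this, hi]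
    rcases Nat.eq_zero_or_pos (i : ℕ) with h | h
    · rw [← e, h]
    · exfalso
      have h1 := mon 0 i h (by omega)
      rw [e] at h1
      have h2 := hpm (b 0) (bl 0 (by omega))
      omega
  refine ⟨b, bk, b0, ?_, mon⟩
  intro i hi
  have h1 := mon i k hi le_rfl
  rw [bk] at h1
  have h2 := bl i (by omega)
  rcases Nat.lt_or_ge (b i) k with h | h
  · exact h
  · exfalso
    have : b i = k := by omega
    rw [this] at h1
    omega

/-- the core: the first token is already on the right -/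
theorem core (k n : ℕ) (X : ℤ) (a : ℕ → Vtx) (p : ℕ) (hp : p < k)
    (x1 : 20 * ((k : ℤ) + 2) ≤ X) (x2 : X + 20 * ((k : ℤ) + 2) ≤ n)
    (nn : ∀ i ≤ k, nd (a i) = n)
    (win : ∀ i ≤ k, X + (2 * k + 4) ≤ |(a i).1| ∨ |(a i).1| + (2 * k + 4) ≤ X)
    (inj : ∀ i j, i ≤ k → j ≤ k → a i = a j → i = j)
    (rt : X < (a p).1)
    (mn : ∀ i < k, DD n (a k) (a p) ≤ DD n (a k) (a i)) :
    ∃ b : ℕ → ℕ, b k = k ∧ (∀ i < k, b i < k) ∧
      (∀ i j, i < k → j < k → b i = b j → i = j) ∧ Nrm k n X (fun i => a (b i)) := by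
  have hn : (0 : ℤ) < n := by omega
  have h0 : 0 ≤ X := by omega
  have h1 : X < n := by omega
  have hpk : p ≤ k := hp.le
  have key : ∀ v w : ℕ, v ≤ k → w ≤ k → DD n (a p) (a v) < DD n (a p) (a w) →
      rk n X (a p).2 (a v) < rk n X (a p).2 (a w) := fun v w hv hw h =>
    mono n X h0 h1 (a p) (a v) (a w) (nn p hpk) (nn v hv) (nn w hw) rt h
  obtain ⟨b, bk, b0, bl, mon⟩ := sorting k (fun i => rk n X (a p).2 (a i)) (by
    intro i j hi hj h
    apply inj i j hi hj
    apply DD_inj n hn (a p) (a i) (a j) (nn p hpk) (nn i hi) (nn j hj)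
    rcases lt_trichotomy (DD n (a p) (a i)) (DD n (a p) (a j)) with h2 | h2 | h2
    · have := key i j hi hj h2
      omega
    · exact h2
    · have := key j i hj hi h2
      omega) (by
    intro i hi
    apply key i k hi.le le_rfl
    apply last n hn (a p) (a i) (a k) (nn p hpk) (nn i hi.le) (nn k le_rfl)
    · intro h
      have := inj k p le_rfl hpk h
      omega
    · intro h
      have := inj i k hi.le le_rfl h
      omega
    · exact mn i hi) p hpk (by
    intro i hi
    by_cases h : i = p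
    · rw [h]
    · apply le_of_lt
      apply key p i hpk hi
      apply first n hn (a p) (a i) (nn p hpk) (nn i hi)
      intro h2
      exact h (inj p i hpk hi h2).symm)
  have ble : ∀ i ≤ k, b i ≤ k := by
    intro i hi
    rcases Nat.lt_or_ge i k with h | h
    · exact (bl i h).le
    · have : i = k := by omega
      rw [this, bk]
  refine ⟨b, bk, bl, ?_, ?_⟩
  · intro i j hi hj h
    rcases lt_trichotomy i j with h2 | h2 | h2
    · have := mon i j h2 hj.le
      rw [h] at this
      omega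
    · exact h2
    · have := mon j i h2 hi.le
      rw [h] at this
      omega
  · refine ⟨x1, x2, fun i hi => nn _ (ble i hi), fun i hi => win _ (ble i hi), ?_, ?_⟩
    · rw [b0]
      exact rt
    · intro i j hij hj
      rw [b0]
      exact mon i j hij hj

/-- the window -/
theorem window (k n : ℕ) (hn : 100 * (k + 2) ^ 2 ≤ n) (x : ℕ → ℤ) :
    ∃ X : ℤ, 20 * ((k : ℤ) + 2) ≤ X ∧ X + 20 * ((k : ℤ) + 2) ≤ n ∧
      ∀ i ≤ k, X + (2 * k + 4) ≤ x i ∨ x i + (2 * k + 4) ≤ X := by
  by_contra hcon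
  push Not at hcon
  have hn' : 100 * ((k : ℤ) + 2) ^ 2 ≤ n := by exact_mod_cast hn
  have h1 : ∀ m : Fin (k + 2), ∃ i : Fin (k + 1), x i < (n : ℤ) / 2 + (4 * k + 8) * (m : ℕ) + (2 * k + 4) ∧
      (n : ℤ) / 2 + (4 * k + 8) * (m : ℕ) < x i + (2 * k + 4) := by
    intro m
    have hm : ((m : ℕ) : ℤ) ≤ (k : ℤ) + 1 := by
      have := m.2
      omega
    have hm0 : (0 : ℤ) ≤ ((m : ℕ) : ℤ) := by positivity
    have hq : (4 * (k : ℤ) + 8) * ((m : ℕ) : ℤ) ≤ (4 * k + 8) * (k + 1) := by
      apply mul_le_mul_of_nonneg_left hm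
      positivity
    have hq0 : 0 ≤ (4 * (k : ℤ) + 8) * ((m : ℕ) : ℤ) := by positivity
    have hk : 100 * ((k : ℤ) + 2) ^ 2 = 100 * (k * k) + 400 * k + 400 := by ring
    have hk2 : (4 * (k : ℤ) + 8) * (k + 1) = 4 * (k * k) + 12 * k + 8 := by ring
    have hkk : (0 : ℤ) ≤ (k : ℤ) * k := by positivity
    obtain ⟨i, hi, h2⟩ := hcon ((n : ℤ) / 2 + (4 * k + 8) * (m : ℕ)) (by omega) (by omega)
    exact ⟨⟨i, by omega⟩, h2.1, h2.2⟩
  choose f hf using h1
  have hfi : Function.Injective f := by
    intro m m' h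
    have h2 := hf m
    have h3 := hf m'
    rw [h] at h2
    have h4 : (4 * (k : ℤ) + 8) * ((m : ℕ) : ℤ) < (4 * (k : ℤ) + 8) * ((m' : ℕ) : ℤ) + (4 * k + 8) := by
      linarith [h2.1, h2.2, h3.1, h3.2]
    have h5 : (4 * (k : ℤ) + 8) * ((m' : ℕ) : ℤ) < (4 * (k : ℤ) + 8) * ((m : ℕ) : ℤ) + (4 * k + 8) := by
      linarith [h2.1, h2.2, h3.1, h3.2]
    have hpos : (0 : ℤ) < 4 * (k : ℤ) + 8 := by positivity
    have h6 : ((m : ℕ) : ℤ) < (m' : ℕ) + 1 := by
      by_contra hc
      push Not at hc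
      have := mul_le_mul_of_nonneg_left hc hpos.le
      linarith
    have h7 : ((m' : ℕ) : ℤ) < (m : ℕ) + 1 := by
      by_contra hc
      push Not at hc
      have := mul_le_mul_of_nonneg_left hc hpos.le
      linarith
    exact Fin.ext (by omega)
  have := Fintype.card_le_of_injective f hfi
  simp only [Fintype.card_fin] at this
  omega

end ORDb

open ORDb in
/-- normalisation of the tokens -/
theorem t_ORD : S_ORD := by
  intro k n a hk hn nn inj
  obtain ⟨X, hx1, hx2, hw⟩ := window k n hn (fun i => |(a i).1|)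
  have hn0 : (0 : ℤ) < n := by omega
  obtain ⟨p, hp, hmin⟩ := Finset.exists_min_image (Finset.range k)
    (fun i => DD n (a k) (a i)) ⟨0, Finset.mem_range.2 (by omega)⟩
  rw [Finset.mem_range] at hp
  have hmn : ∀ i < k, DD n (a k) (a p) ≤ DD n (a k) (a i) := fun i hi =>
    hmin i (Finset.mem_range.2 hi)
  have hpk : p ≤ k := hp.le
  -- the general step
  have step : ∀ (q : ℕ) (Y : ℤ), 20 * ((k : ℤ) + 2) ≤ Y → Y + 20 * ((k : ℤ) + 2) ≤ n →
      (∀ i ≤ k, Y + (2 * k + 4) ≤ |(rotV^[q] (a i)).1| ∨ |(rotV^[q] (a i)).1| + (2 * k + 4) ≤ Y) →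
      Y < (rotV^[q] (a p)).1 →
      ∃ (b : ℕ → ℕ) (q : ℕ) (X : ℤ), b k = k ∧ (∀ i < k, b i < k) ∧
        (∀ i j, i < k → j < k → b i = b j → i = j) ∧ Nrm k n X (fun i => rotV^[q] (a (b i))) := by
    intro q Y y1 y2 y3 y4
    obtain ⟨b, b1, b2, b3, b4⟩ := core k n Y (fun i => rotV^[q] (a i)) p hp y1 y2
      (fun i hi => by rw [nd_rot_it, nn i hi]) y3
      (fun i j hi hj h => inj i j hi hj ((rotV_inj.iterate q) h)) y4
      (fun i hi => by
        rw [DD_rot_it n hn0 _ _ (nn k le_rfl) (nn p hpk) q,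
          DD_rot_it n hn0 _ _ (nn k le_rfl) (nn i hi.le) q]
        exact hmn i hi)
    exact ⟨b, q, Y, b1, b2, b3, b4⟩
  have hy : ∀ i ≤ k, |(a i).2| = n - |(a i).1| := by
    intro i hi
    have := nn i hi
    unfold nd at this
    omega
  have hwp := hw p hpk
  have hyp := hy p hpk
  rcases hwp with h | h
  · rcases le_total 0 (a p).1 with h0 | h0
    · rw [abs_of_nonneg h0] at h
      refine step 0 X hx1 hx2 ?_ ?_
      · intro i hi
        simpa using hw i hi
      · simp only [Function.iterate_zero, id_eq]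
        omega
    · rw [abs_of_nonpos h0] at h
      refine step 2 X hx1 hx2 ?_ ?_
      · intro i hi
        simp only [Function.iterate_succ, Function.iterate_zero, Function.comp_apply, id_eq, rotV,
          abs_neg]
        exact hw i hi
      · simp only [Function.iterate_succ, Function.iterate_zero, Function.comp_apply, id_eq, rotV]
        omega
  · rcases le_total 0 (a p).2 with h0 | h0
    · rw [abs_of_nonneg h0] at hyp
      refine step 3 (n - X) (by omega) (by omega) ?_ ?_
      · intro i hi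
        have h2 := hw i hi
        have h3 := hy i hi
        simp only [Function.iterate_succ, Function.iterate_zero, Function.comp_apply, id_eq, rotV,
          neg_neg]
        omega
      · simp only [Function.iterate_succ, Function.iterate_zero, Function.comp_apply, id_eq, rotV]
        omega
    · rw [abs_of_nonpos h0] at hyp
      refine step 1 (n - X) (by omega) (by omega) ?_ ?_
      · intro i hi
        have h2 := hw i hi
        have h3 := hy i hi
        simp only [Function.iterate_succ, Function.iterate_zero, Function.comp_apply, id_eq, rotV,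
          abs_neg]
        omega
      · simp only [Function.iterate_succ, Function.iterate_zero, Function.comp_apply, id_eq, rotV]
        omega

end Pool.Agent.W658.KT
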